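import Pool.Agent.H7.XR2.Bas

/-!
# Project XR2, row DIR: lower bound for the speed of the flip in the direction
-/

set_option autoImplicit false

open MeasureTheory Set Filter Topology Metric Asymptotics
open scoped Real ENNReal NNReal

namespace Pool.XR2

open Pool.Agent.H45.XR

/-- The chord through a boundary point at a good level is long. -/
theorem flip_far (hFLX : FLXStmt) (hFLB : FLBStmt) {r R κ : ℝ} {C : Set ℂ} (hr : 0 < r)
    (hκ : 0 < κ) (hC : Bd r R C) {φ x : ℝ} (hS : NoSeg C φ) (hL : Lv C φ κ x) :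
    ∃ s : ℝ, pt C (fl C φ x) = pt C x + s * e φ ∧ r * κ / R ≤ |s| := by
  have hF := (hFLX C φ hC.body hS).1
  have hB := hFLB C φ hC.body hS
  have hR : 0 < R := by
    have := rad_bd hC 0
    linarith
  have hc1 : 0 < r * κ / R := by positivity
  have hnx : ¬ Fx (fl C φ) x := (hB.2.2.2.2.1 x).2 ⟨κ, hκ, hL⟩
  obtain ⟨A, hA, a, hA', hAt, ha⟩ := chord_ex hr hκ hC hL.1 hL.2
  have hQ := eq_add_of_tc_eq (hF.line x)
  obtain ⟨s, hs⟩ : ∃ s : ℝ, s = yc φ (pt C (fl C φ x)) - yc φ (pt C x) := ⟨_, rfl⟩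
  rw [← hs] at hQ
  refine ⟨s, hQ, ?_⟩
  have hs0 : s ≠ 0 := by
    intro h0
    rw [h0] at hQ
    have h1 : pt C (fl C φ x) = pt C x := by simpa using hQ
    obtain ⟨n, hn⟩ := B3.pt_eq hC.body h1
    exact hnx ⟨n, hn⟩
  have hAA : A ≠ A + a * e φ := by
    intro h
    have h1 : (a : ℂ) * e φ = 0 := by
      have := congrArg (fun w => w - A) h
      simpa using this.symm
    rcases mul_eq_zero.1 h1 with h2 | h2
    · have : a = 0 := by exact_mod_cast h2
      linarith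
    · exact e_ne_zero _ h2
  obtain ⟨z, hz, hzt⟩ := hS A hA (A + a * e φ) hA' hAA (by rw [tc_add, tc_mul, tc_e_self]; ring)
  have hzP : tc φ z = tc φ (pt C x) := hzt.trans hAt
  have hAP := eq_add_of_tc_eq hAt
  obtain ⟨y, hy⟩ : ∃ y : ℝ, y = yc φ A - yc φ (pt C x) := ⟨_, rfl⟩
  rw [← hy] at hAP
  have hA2 : pt C x + y * e φ ∈ C := by rw [← hAP]; exact hA
  have hA3 : pt C x + ((y + a : ℝ) : ℂ) * e φ ∈ C := by
    have : pt C x + ((y + a : ℝ) : ℂ) * e φ = A + a * e φ := by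
      rw [hAP]; push_cast; ring
    rw [this]; exact hA'
  have hP := pt_mem hC.body x
  have hP' := pt_notMem_interior hC.body x
  have hQm : pt C x + s * e φ ∈ C := by rw [← hQ]; exact pt_mem hC.body _
  have hQm' : pt C x + s * e φ ∉ interior C := by rw [← hQ]; exact pt_notMem_interior hC.body _
  have i1 := in_chord hC.body hP hP' hQm hQm' hs0 hz hzP hA2
  have i2 := in_chord hC.body hP hP' hQm hQm' hs0 hz hzP hA3
  rcases le_total 0 s with h | h
  · rw [min_eq_left h, max_eq_right h] at i1 i2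
    rw [abs_of_nonneg h]
    linarith
  · rw [min_eq_right h, max_eq_left h] at i1 i2
    rw [abs_of_nonpos h]
    linarith

theorem sin_ge {u : ℝ} (h0 : 0 ≤ u) (h1 : u ≤ 2 * π / 3) : u / π ≤ Real.sin u := by
  have hpi := Real.pi_pos
  rcases le_total u (π / 2) with h | h
  · have h2 := Real.mul_le_sin h0 h
    have h3 : u / π ≤ 2 / π * u := by
      rw [div_mul_eq_mul_div]
      exact div_le_div_of_nonneg_right (by linarith) hpi.le
    linarith
  · have h2 := Real.mul_le_sin (x := π - u) (by linarith) (by linarith)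
    rw [Real.sin_pi_sub] at h2
    refine le_trans ?_ h2
    rw [div_mul_eq_mul_div]
    exact div_le_div_of_nonneg_right (by linarith) hpi.le

/-- The estimate for angles up to `2π/3`. -/
theorem dir_small (hFLX : FLXStmt) (hFLB : FLBStmt) (hMNF : MNFStmt) {r R κ : ℝ} {C : Set ℂ}
    (hr : 0 < r) (hκ : 0 < κ) (hC : Bd r R C) {φ φ' x : ℝ} (hS : NoSeg C φ) (hS' : NoSeg C φ')
    (h0 : φ ≤ φ') (h1 : φ' - φ ≤ 2 * π / 3) (hL : Lv C φ κ x ∨ Lv C φ' κ x) :
    r * κ / R / (2 * π * (R + R ^ 2 / r)) * (φ' - φ) ≤ fl C φ' x - fl C φ x := by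
  have hpi := Real.pi_pos
  have hR : 0 < R := by
    have := rad_bd hC 0
    linarith
  obtain ⟨c₁, hc₁⟩ : ∃ c₁ : ℝ, c₁ = r * κ / R := ⟨_, rfl⟩
  have hc1 : 0 < c₁ := by rw [hc₁]; positivity
  obtain ⟨L, hLd⟩ : ∃ L : ℝ, L = R + R ^ 2 / r := ⟨_, rfl⟩
  have hLp : 0 < L := by rw [hLd]; positivity
  rw [← hc₁, ← hLd]
  have hF := (hFLX C φ hC.body hS).1
  have hF' := (hFLX C φ' hC.body hS').1
  have hmono : fl C φ x ≤ fl C φ' x := by
    rcases h0.lt_or_eq with h | h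
    · exact (hMNF C φ φ' x hC.body hS hS' h).1
    · rw [h]
  obtain ⟨d, hd⟩ : ∃ d : ℝ, d = fl C φ' x - fl C φ x := ⟨_, rfl⟩
  have hd0 : 0 ≤ d := by linarith
  rw [← hd]
  have hQQ : ‖pt C (fl C φ' x) - pt C (fl C φ x)‖ ≤ L * d := by
    have := pt_lip hr hC (fl C φ' x) (fl C φ x)
    rw [← hd, abs_of_nonneg hd0, ← hLd] at this
    exact this
  obtain ⟨u, hu⟩ : ∃ u : ℝ, u = φ' - φ := ⟨_, rfl⟩
  rw [← hu] at h1 ⊢
  have hu0 : 0 ≤ u := by linarith
  have htn : ∀ (ψ : ℝ) (z : ℂ), |tc ψ z| ≤ ‖z‖ := abs_tc_le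
  -- the common end of the two cases
  have fin : ∀ s : ℝ, c₁ - L * d ≤ |s| → |s| * Real.sin u ≤ L * d →
      c₁ / (2 * π * L) * u ≤ d := by
    intro s hs1 hs2
    rw [div_mul_eq_mul_div, div_le_iff₀ (by positivity)]
    rcases le_total (c₁ / 2) (L * d) with h | h
    · have hu3 : u ≤ π := by linarith
      nlinarith
    · have h2 := sin_ge hu0 h1
      have h3 : c₁ / 2 ≤ |s| := by linarith
      have h4 : 0 ≤ u / π := by positivity
      have h5 : c₁ / 2 * (u / π) ≤ L * d := by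
        calc c₁ / 2 * (u / π) ≤ |s| * Real.sin u := mul_le_mul h3 h2 h4 (abs_nonneg _)
          _ ≤ L * d := hs2
      have h6 : c₁ / 2 * (u / π) * (2 * π) = c₁ * u := by field_simp
      nlinarith
  have hQ := eq_add_of_tc_eq (hF.line x)
  have hQ' := eq_add_of_tc_eq (hF'.line x)
  obtain ⟨s, hs⟩ : ∃ s : ℝ, s = yc φ (pt C (fl C φ x)) - yc φ (pt C x) := ⟨_, rfl⟩
  obtain ⟨s', hs'⟩ : ∃ s' : ℝ, s' = yc φ' (pt C (fl C φ' x)) - yc φ' (pt C x) := ⟨_, rfl⟩
  rw [← hs] at hQ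
  rw [← hs'] at hQ'
  have hdiff : pt C (fl C φ' x) - pt C (fl C φ x) = s' * e φ' - s * e φ := by
    rw [hQ, hQ']; ring
  have n1 : ‖(s' : ℂ) * e φ'‖ = |s'| := by
    rw [norm_mul, norm_e, mul_one, Complex.norm_real, Real.norm_eq_abs]
  have n2 : ‖(s : ℂ) * e φ‖ = |s| := by
    rw [norm_mul, norm_e, mul_one, Complex.norm_real, Real.norm_eq_abs]
  have h5 : ‖(s' : ℂ) * e φ' - s * e φ‖ ≤ L * d := by rw [← hdiff]; exact hQQ
  have hsin0 : 0 ≤ Real.sin u := Real.sin_nonneg_of_nonneg_of_le_pi hu0 (by linarith)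
  rcases hL with hL | hL
  · obtain ⟨s₁, hs₁, hs₁'⟩ := flip_far hFLX hFLB hr hκ hC hS hL
    have h6 : |s| = |s₁| := by
      have h7 : (s : ℂ) * e φ = (s₁ : ℂ) * e φ := by
        have := hQ.symm.trans hs₁
        exact add_left_cancel this
      rw [← n2, h7, norm_mul, norm_e, mul_one, Complex.norm_real, Real.norm_eq_abs]
    rw [← hc₁, ← h6] at hs₁'
    refine fin s' ?_ ?_
    · have h8 : ‖(s : ℂ) * e φ‖ ≤ ‖(s' : ℂ) * e φ'‖ + ‖(s' : ℂ) * e φ' - s * e φ‖ := by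
        have := norm_sub_le ((s' : ℂ) * e φ') ((s' : ℂ) * e φ' - s * e φ)
        rwa [sub_sub_cancel] at this
      rw [n1, n2] at h8
      linarith
    · have h8 : tc φ ((s' : ℂ) * e φ' - s * e φ) = s' * Real.sin u := by
        rw [tc_sub, tc_mul, tc_mul, tc_e_self, tc_e, hu]; ring
      have h9 := htn φ ((s' : ℂ) * e φ' - s * e φ)
      rw [h8, abs_mul, abs_of_nonneg hsin0] at h9
      linarith
  · obtain ⟨s₁, hs₁, hs₁'⟩ := flip_far hFLX hFLB hr hκ hC hS' hL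
    have h6 : |s'| = |s₁| := by
      have h7 : (s' : ℂ) * e φ' = (s₁ : ℂ) * e φ' := by
        have := hQ'.symm.trans hs₁
        exact add_left_cancel this
      rw [← n1, h7, norm_mul, norm_e, mul_one, Complex.norm_real, Real.norm_eq_abs]
    rw [← hc₁, ← h6] at hs₁'
    refine fin s ?_ ?_
    · have h8 : ‖(s' : ℂ) * e φ'‖ ≤ ‖(s : ℂ) * e φ‖ + ‖(s' : ℂ) * e φ' - s * e φ‖ := by
        have := norm_add_le ((s : ℂ) * e φ) ((s' : ℂ) * e φ' - s * e φ)
        rwa [add_sub_cancel] at this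
      rw [n1, n2] at h8
      linarith
    · have h8 : tc φ' ((s' : ℂ) * e φ' - s * e φ) = s * Real.sin u := by
        rw [tc_sub, tc_mul, tc_mul, tc_e_self, tc_e]
        have : φ - φ' = -u := by rw [hu]; ring
        rw [this, Real.sin_neg]
        ring
      have h9 := htn φ' ((s' : ℂ) * e φ' - s * e φ)
      rw [h8, abs_mul, abs_of_nonneg hsin0] at h9
      linarith

theorem t_dir (hFLX : FLXStmt) (hFLB : FLBStmt) (hMNF : MNFStmt) : DIRStmt := by
  intro r R κ hr hκ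
  rcases le_or_gt R 0 with hR | hR
  · refine ⟨1, one_pos, ?_⟩
    intro C φ φ' x hC
    have := rad_bd hC 0
    linarith
  obtain ⟨c, hc⟩ : ∃ c : ℝ, c = r * κ / R / (2 * π * (R + R ^ 2 / r)) := ⟨_, rfl⟩
  have hpi := Real.pi_pos
  have hcp : 0 < c := by rw [hc]; positivity
  refine ⟨c / 3, by positivity, ?_⟩
  intro C φ φ' x hC hS hS' h0 h1 hL
  have small := fun {a b : ℝ} (ha : NoSeg C a) (hb : NoSeg C b) (h2 : a ≤ b)
    (h3 : b - a ≤ 2 * π / 3) (h4 : Lv C a κ x ∨ Lv C b κ x) =>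
    dir_small hFLX hFLB hMNF hr hκ hC ha hb h2 h3 h4
  rw [← hc] at small
  have mono : ∀ a b : ℝ, NoSeg C a → NoSeg C b → a < b → fl C a x ≤ fl C b x :=
    fun a b ha hb hab => (hMNF C a b x hC.body ha hb hab).1
  rcases le_total (φ' - φ) (2 * π / 3) with h | h
  · have h2 := small hS hS' h0 h hL
    have h3 : c / 3 * (φ' - φ) ≤ c * (φ' - φ) := by
      have : 0 ≤ φ' - φ := by linarith
      nlinarith
    linarith
  · rcases hL with hL | hL
    · obtain ⟨ψ, hψ1, hψ2, hψ⟩ := noSeg_dense hC.body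
        (show φ + π / 3 < φ + 2 * π / 3 by linarith)
      have h2 := small hS hψ (by linarith) (by linarith) (Or.inl hL)
      have h3 := mono ψ φ' hψ hS' (by linarith)
      have h4 : c / 3 * (φ' - φ) ≤ c * (ψ - φ) := by nlinarith
      linarith
    · obtain ⟨ψ, hψ1, hψ2, hψ⟩ := noSeg_dense hC.body
        (show φ' - 2 * π / 3 < φ' - π / 3 by linarith)
      have h2 := small hψ hS' (by linarith) (by linarith) (Or.inr hL)
      have h3 := mono φ ψ hS hψ (by linarith)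
      have h4 : c / 3 * (φ' - φ) ≤ c * (φ' - ψ) := by nlinarith
      linarith

end Pool.XR2
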