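import Pool.Agent.H7.XR2.PSA

/-!
# Project XR2, row GFL: the flip of `C` follows the gaps
-/

set_option autoImplicit false

open MeasureTheory Set Filter Topology Metric Asymptotics
open scoped Real ENNReal NNReal

namespace Pool.XR2

open Pool.Agent.H45.XR

theorem flip_int {C : Set ℂ} {φ : ℝ} {F : ℝ → ℝ} (h : IsFlip C φ F) (x : ℝ) (k : ℤ) :
    F (x + k * (2 * π)) = F x - k * (2 * π) := by
  have hp : Function.Periodic (fun y => F y + y) (2 * π) := by
    intro y
    show F (y + 2 * π) + (y + 2 * π) = F y + y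
    rw [h.per]; ring
  have h1 := hp.int_mul k x
  have h2 : F (x + k * (2 * π)) + (x + k * (2 * π)) = F x + x := h1
  linarith

/-- The boundary arc between the end points of a chord lies on one side. -/
theorem chord_side {C : Set ℂ} (hC : Body C) {φ a b c s : ℝ} (hab : a < b) (hbc : b < c)
    (hca : c < a + 2 * π) (hs : 0 < s) (h : pt C c = pt C a + s * e φ) :
    tc φ (pt C b) ≤ tc φ (pt C a) := by
  have h1 := A2.orient hC hab hbc hca
  have hre := congrArg Complex.re h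
  have him := congrArg Complex.im h
  have e1 : ∀ θ : ℝ, (pt C θ).re = rad C θ * Real.cos θ := by
    intro θ
    simp [pt, e, Complex.exp_ofReal_mul_I_re, Complex.exp_ofReal_mul_I_im]
  have e2 : ∀ θ : ℝ, (pt C θ).im = rad C θ * Real.sin θ := by
    intro θ
    simp [pt, e, Complex.exp_ofReal_mul_I_re, Complex.exp_ofReal_mul_I_im]
  have e3 : (e φ).re = Real.cos φ := by simp [e, Complex.exp_ofReal_mul_I_re]
  have e4 : (e φ).im = Real.sin φ := by simp [e, Complex.exp_ofReal_mul_I_im]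
  rw [Complex.add_re, Complex.re_ofReal_mul, e1, e1, e3] at hre
  rw [Complex.add_im, Complex.im_ofReal_mul, e2, e2, e4] at him
  have h2 : s * (tc φ (pt C a) - tc φ (pt C b)) =
      rad C a * rad C b * Real.sin (b - a) + rad C b * rad C c * Real.sin (c - b) +
      rad C c * rad C a * Real.sin (a - c) := by
    unfold tc
    rw [e1, e1, e2, e2, Real.sin_sub, Real.sin_sub, Real.sin_sub]
    have h3 : s * Real.cos φ = rad C c * Real.cos c - rad C a * Real.cos a := by linarith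
    have h4 : s * Real.sin φ = rad C c * Real.sin c - rad C a * Real.sin a := by linarith
    linear_combination (rad C a * Real.sin a - rad C b * Real.sin b) * h3 -
      (rad C a * Real.cos a - rad C b * Real.cos b) * h4
  rw [← h2] at h1
  have h3 : 0 ≤ tc φ (pt C a) - tc φ (pt C b) := by
    by_contra hc
    push Not at hc
    have := mul_neg_of_pos_of_neg hs hc
    linarith
  linarith

/-- The case of a right tip of `W`. -/
theorem gfl_right (hFLX : FLXStmt) (hFLB : FLBStmt) {C W : Set ℂ} {φ x a : ℝ} (hC : Body C)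
    (hS : NoSeg C φ) (hW : Body W) (hSW : NoSeg W φ) (hpt : pt W a = pt C a)
    (hfix : fl W φ a = a) (h2 : ∃ z ∈ interior W, tc φ z = tc φ (pt C x)) :
    (a < x → fl C φ x < a) ∧ (x < a → a < fl C φ x) := by
  have hpi := Real.pi_pos
  have hF := (hFLX C φ hC hS).1
  have hG := (hFLX W φ hW hSW).1
  obtain ⟨r, hr1, hr2, hr3, hr4⟩ := hG.rt
  have har : a = r := by
    rcases lt_trichotomy a r with h | h | h
    · have := hG.anti h
      rw [hfix, hr3] at this
      linarith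
    · exact h
    · have := hG.anti h
      rw [hfix, hr3] at this
      linarith
  rw [← har] at hr1 hr2 hr4
  obtain ⟨l, hl1, hl2, hl3, hl4⟩ := hF.lt
  -- the level of `x` is to the left of the tip
  have hlev : tc φ (pt C a) < tc φ (pt C x) := by
    obtain ⟨z, hz, hzt⟩ := h2
    obtain ⟨δ, hδ, _, hp⟩ := B3.push (d := Complex.I * e φ) hz
    have h3 := hr4 _ (interior_subset (hp (-δ) (by rw [abs_neg, abs_of_pos hδ])))
    have h4 : tc φ (Complex.I * e φ) = 1 := by
      have e3 : (e φ).re = Real.cos φ := by simp [e, Complex.exp_ofReal_mul_I_re]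
      have e4 : (e φ).im = Real.sin φ := by simp [e, Complex.exp_ofReal_mul_I_im]
      unfold tc
      rw [Complex.I_mul_re, Complex.I_mul_im, e3, e4]
      nlinarith [Real.sin_sq_add_cos_sq φ]
    rw [tc_add, tc_mul, h4, hzt, hpt] at h3
    linarith
  have hFl : fl C φ (l - 2 * π) = l := by
    have := hF.per (l - 2 * π)
    rw [sub_add_cancel, hl3] at this
    linarith
  constructor
  · intro hax
    by_contra hc
    push Not at hc
    have h3 : x ≤ fl C φ a := by
      have := hF.anti.antitone hc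
      rwa [hF.inv] at this
    have h4 : fl C φ a < a + 2 * π := by
      have : fl C φ a < fl C φ (l - 2 * π) := hF.anti (by linarith)
      rw [hFl] at this
      linarith
    obtain ⟨s, hs, hs1⟩ := (hFLB C φ hC hS).2.2.2.1 (fl C φ a) (by rw [hF.inv]; linarith)
      (by rw [hF.inv]; linarith)
    rw [hF.inv] at hs1
    rcases eq_or_lt_of_le h3 with h5 | h5
    · have := hF.line a
      rw [← h5] at this
      linarith
    · have := chord_side hC hax h5 h4 hs hs1
      linarith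
  · intro hxa
    by_contra hc
    push Not at hc
    have h3 : fl C φ a ≤ x := by
      have := hF.anti.antitone hc
      rwa [hF.inv] at this
    have h4 : a < fl C φ a + 2 * π := by
      have : fl C φ l < fl C φ a := hF.anti (by linarith)
      rw [hl3] at this
      linarith
    obtain ⟨s, hs, hs1⟩ := (hFLB C φ hC hS).2.2.2.1 a (by linarith) h4
    have hline := hF.line a
    rcases eq_or_lt_of_le h3 with h5 | h5
    · rw [h5] at hline
      linarith
    · have := chord_side hC h5 hxa h4 hs hs1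
      linarith

/-- The case of any tip of `W`. -/
theorem gfl_tip (hFLX : FLXStmt) (hFLB : FLBStmt) {C W : Set ℂ} {φ x a : ℝ} (hC : Body C)
    (hS : NoSeg C φ) (hW : Body W) (hSW : NoSeg W φ) (hpt : pt W a = pt C a)
    (hfix : Fx (fl W φ) a) (h2 : ∃ z ∈ interior W, tc φ z = tc φ (pt C x)) :
    (a < x → fl C φ x < fl W φ a) ∧ (x < a → fl W φ a < fl C φ x) := by
  have hF := (hFLX C φ hC hS).1
  have hG := (hFLX W φ hW hSW).1
  obtain ⟨k, hk⟩ := hfix
  obtain ⟨m, hm⟩ : ∃ m : ℤ, k = 2 * m ∨ k = 2 * m + 1 := by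
    obtain ⟨m, hm⟩ := Int.even_or_odd' k
    exact ⟨m, hm⟩
  have hper : ∀ (D : Set ℂ) (y : ℝ) (j : ℤ), pt D (y + j * (2 * π)) = pt D y := by
    intro D y j
    have : Function.Periodic (pt D) (2 * π) := pt_periodic D
    exact this.int_mul j y
  rcases hm with hm | hm
  · have h3 : fl W φ (a + m * (2 * π)) = a + m * (2 * π) := by
      rw [flip_int hG, hk, hm]; push_cast; ring
    have h4 := gfl_right hFLX hFLB (x := x + m * (2 * π)) hC hS hW hSW
      (by rw [hper, hper, hpt]) h3 (by rw [hper]; exact h2)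
    rw [flip_int hF] at h4
    have h5 : fl W φ a = a + 2 * m * (2 * π) := by rw [hk, hm]; push_cast; ring
    rw [h5]
    refine ⟨fun h => ?_, fun h => ?_⟩
    · have := h4.1 (by linarith)
      linarith
    · have := h4.2 (by linarith)
      linarith
  · have hS' : NoSeg C (φ + π) := B3.noSeg_add_pi hS
    have hSW' : NoSeg W (φ + π) := B3.noSeg_add_pi hSW
    have hF' := (hFLX C (φ + π) hC hS').1
    have hG' := (hFLX W (φ + π) hW hSW').1
    have b1 := (hFLB C φ hC hS).2.2.1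
    have b2 := (hFLB W φ hW hSW).2.2.1
    have h3 : fl W (φ + π) (a + (m + 1 : ℤ) * (2 * π)) = a + (m + 1 : ℤ) * (2 * π) := by
      rw [flip_int hG', b2, hk, hm]; push_cast; ring
    have h4 := gfl_right hFLX hFLB (x := x + (m + 1 : ℤ) * (2 * π)) hC hS' hW hSW'
      (by rw [hper, hper, hpt]) h3 (by
        obtain ⟨z, hz, hzt⟩ := h2
        exact ⟨z, hz, by rw [hper, B3.tc_add_pi, B3.tc_add_pi, hzt]⟩)
    rw [flip_int hF', b1] at h4
    have h5 : fl W φ a = a + (2 * m + 1) * (2 * π) := by rw [hk, hm]; push_cast; ring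
    rw [h5]
    push_cast at h4
    refine ⟨fun h => ?_, fun h => ?_⟩
    · have := h4.1 (by linarith)
      linarith
    · have := h4.2 (by linarith)
      linarith

/-- Two common points on the line of a good chord. -/
theorem two_pts {r R κ : ℝ} (hr : 0 < r) (hκ : 0 < κ) (hR : 0 < R) : ∃ ε > 0,
    ∀ (C C' : Set ℂ) (φ α β s : ℝ), Bd r R C → Bd r R C' → SameX C C' φ →
      (∃ z ∈ C, tc φ z + κ ≤ tc φ (pt C α)) → (∃ z ∈ interior C, tc φ z = tc φ (pt C α)) →
      r * κ / R ≤ s → pt C β = pt C α + s * e φ → tc φ (pt C α) ≤ 0 →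
      |rad C' α - rad C α| ≤ ε → |rad C' β - rad C β| ≤ ε →
      ∃ p ∈ C ∩ C', ∃ p' ∈ C ∩ C', p ≠ p' ∧ tc φ p = tc φ (pt C α) ∧
        tc φ p' = tc φ (pt C α) := by
  obtain ⟨c₁, hc₁⟩ : ∃ c₁ : ℝ, c₁ = r * κ / R := ⟨_, rfl⟩
  have hc10 : 0 < c₁ := by rw [hc₁]; positivity
  obtain ⟨c₂, hc20, hc21, hmid⟩ := mid_deep (r := r) (κ := κ / 2) (by positivity) hc10 hR
  rw [← hc₁]
  refine ⟨r * c₂ / 2, by positivity, ?_⟩
  intro C C' φ α β s hC hC' hX hlow hint hs hch ht hq1 hq2
  have hs0 : 0 < s := hc10.trans_le hs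
  obtain ⟨δ, hδ⟩ := shift_ex hC.body hC'.body hX hs0 (pt_mem hC.body α)
    (pt_notMem_interior hC.body α) (by rw [← hch]; exact pt_mem hC.body β)
    (by rw [← hch]; exact pt_notMem_interior hC.body β) hint
  have m1 := (hδ δ).2 ⟨le_rfl, by linarith⟩
  have m2 := (hδ (δ + s)).2 ⟨by linarith, le_rfl⟩
  have hgm : gauge C' (pt C α + ((δ + s / 2 : ℝ) : ℂ) * e φ) ≤ 1 - c₂ := by
    have h1 : tc φ (pt C α + (δ : ℂ) * e φ) = tc φ (pt C α) := by
      rw [tc_add, tc_mul, tc_e_self, mul_zero, add_zero]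
    have h2 := hmid C' φ s (pt C α + (δ : ℂ) * e φ) hC' hs m1
      (by
        have : pt C α + (δ : ℂ) * e φ + (s : ℂ) * e φ = pt C α + ((δ + s : ℝ) : ℂ) * e φ := by
          push_cast; ring
        rw [this]; exact m2)
      (by rw [h1]; exact ht) (by rw [h1]; exact level_ex hC.body hX hκ hlow)
    have h3 : pt C α + (δ : ℂ) * e φ + ((s / 2 : ℝ) : ℂ) * e φ =
        pt C α + ((δ + s / 2 : ℝ) : ℂ) * e φ := by
      push_cast; ring
    rw [h3] at h2
    exact h2
  have hCh : Ch r R c₁ c₂ C C' φ α β s δ := ⟨hr, hc10, hc20, hC, hC', hs, hch, hδ, ht, hgm⟩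
  have hεc : r * c₂ / 2 < r * c₂ := by
    have h2 : 0 < r * c₂ := by positivity
    linarith
  obtain ⟨d1, _⟩ := hCh.est hεc hq1 hq2
  rw [abs_lt] at d1
  have hin : ∀ y : ℝ, 0 ≤ y → y ≤ s → pt C α + y * e φ ∈ C := by
    intro y h2 h3
    have h4 := hC.body.conv (pt_mem hC.body α) (pt_mem hC.body β) (a := 1 - y / s) (b := y / s)
      (by rw [sub_nonneg, div_le_one hs0]; exact h3) (div_nonneg h2 hs0.le) (by ring)
    convert h4 using 1
    have hne : (s : ℂ) ≠ 0 := by exact_mod_cast hs0.ne'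
    rw [hch]
    simp only [Complex.real_smul, Complex.ofReal_div, Complex.ofReal_sub, Complex.ofReal_one]
    field_simp
    ring
  obtain ⟨y, hy1, hy2, hy3, hy4⟩ : ∃ y : ℝ, 0 ≤ y ∧ y < s / 2 ∧ δ ≤ y ∧ y ≤ δ + s :=
    ⟨max 0 δ, le_max_left _ _, max_lt (by linarith) d1.2, le_max_right _ _,
      max_le (by linarith) (by linarith)⟩
  have hlv : ∀ y : ℝ, tc φ (pt C α + y * e φ) = tc φ (pt C α) := by
    intro y
    rw [tc_add, tc_mul, tc_e_self, mul_zero, add_zero]
  refine ⟨_, ⟨hin y hy1 (by linarith), (hδ y).2 ⟨hy3, hy4⟩⟩, _,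
    ⟨hin (s / 2) (by linarith) (by linarith), (hδ (s / 2)).2 ⟨by linarith, by linarith⟩⟩,
    ?_, hlv _, hlv _⟩
  intro h
  have h6 : ((y - s / 2 : ℝ) : ℂ) * e φ = 0 := by
    have := congrArg (fun w => w - (pt C α + ((s / 2 : ℝ) : ℂ) * e φ)) h
    simp only [sub_self] at this
    rw [← this]
    push_cast
    ring
  rcases mul_eq_zero.1 h6 with h7 | h7
  · have : y - s / 2 = 0 := by exact_mod_cast h7
    linarith
  · exact e_ne_zero _ h7

/-- The same for flips. -/
theorem two_pts_full (hFLX : FLXStmt) (hFLB : FLBStmt) {r R κ : ℝ} (hr : 0 < r) (hκ : 0 < κ)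
    (hR : 0 < R) : ∃ ε > 0, ∀ (C C' : Set ℂ) (φ x : ℝ), Bd r R C → Bd r R C' → SameX C C' φ →
      NoSeg C φ → Lv C φ κ x → |rad C' x - rad C x| ≤ ε →
      |rad C' (fl C φ x) - rad C (fl C φ x)| ≤ ε →
      ∃ p ∈ C ∩ C', ∃ p' ∈ C ∩ C', p ≠ p' ∧ tc φ p = tc φ (pt C x) ∧
        tc φ p' = tc φ (pt C x) := by
  obtain ⟨ε, hε, h⟩ := two_pts hr hκ hR
  refine ⟨ε, hε, ?_⟩
  intro C C' φ x hC hC' hX hS hL hq1 hq2
  obtain ⟨s, hs, hs1⟩ := flip_far hFLX hFLB hr hκ hC hS hL
  have hc : 0 < r * κ / R := by positivity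
  have hs0 : s ≠ 0 := by
    intro h0
    rw [h0, abs_zero] at hs1
    linarith
  obtain ⟨y, hy⟩ : ∃ y : ℝ, y = fl C φ x := ⟨_, rfl⟩
  rw [← hy] at hs hq2
  have htc : tc φ (pt C y) = tc φ (pt C x) := by
    rw [hs, tc_add, tc_mul, tc_e_self, mul_zero, add_zero]
  have hne : pt C x ≠ pt C y := by
    intro h5
    rw [← h5] at hs
    have h6 : (s : ℂ) * e φ = 0 := by
      have := congrArg (fun w => w - pt C x) hs
      simpa using this.symm
    rcases mul_eq_zero.1 h6 with h7 | h7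
    · exact hs0 (by exact_mod_cast h7)
    · exact e_ne_zero _ h7
  obtain ⟨z, hz, hzt⟩ := hS _ (pt_mem hC.body x) _ (pt_mem hC.body y) hne htc.symm
  have hX' : SameX C C' (φ + π) := B3.sameX_add_pi hX
  have he : e (φ + π) = -e φ := e_add_pi φ
  rcases le_or_gt (tc φ (pt C x)) 0 with ht | ht
  · rcases lt_or_gt_of_ne hs0 with hs2 | hs2
    · rw [abs_of_neg hs2] at hs1
      have := h C C' φ y x (-s) hC hC' hX
        (by rw [htc]; exact hL.1) ⟨z, hz, by rw [htc]; exact hzt⟩ hs1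
        (by rw [hs]; push_cast; ring) (by rw [htc]; exact ht) hq2 hq1
      rw [htc] at this
      exact this
    · rw [abs_of_pos hs2] at hs1
      exact h C C' φ x y s hC hC' hX hL.1 ⟨z, hz, hzt⟩ hs1 hs ht hq1 hq2
  · have hlow : ∃ z ∈ C, tc (φ + π) z + κ ≤ tc (φ + π) (pt C x) := by
      obtain ⟨w, hw, hw1⟩ := hL.2
      refine ⟨w, hw, ?_⟩
      rw [B3.tc_add_pi, B3.tc_add_pi]
      linarith
    have htc' : tc (φ + π) (pt C y) = tc (φ + π) (pt C x) := by
      rw [B3.tc_add_pi, B3.tc_add_pi, htc]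
    have ht' : tc (φ + π) (pt C x) ≤ 0 := by
      rw [B3.tc_add_pi]; linarith
    have hz' : tc (φ + π) z = tc (φ + π) (pt C x) := by
      rw [B3.tc_add_pi, B3.tc_add_pi, hzt]
    have hback : (∃ p ∈ C ∩ C', ∃ p' ∈ C ∩ C', p ≠ p' ∧
        tc (φ + π) p = tc (φ + π) (pt C x) ∧ tc (φ + π) p' = tc (φ + π) (pt C x)) →
        ∃ p ∈ C ∩ C', ∃ p' ∈ C ∩ C', p ≠ p' ∧ tc φ p = tc φ (pt C x) ∧
        tc φ p' = tc φ (pt C x) := by
      rintro ⟨p, hp, p', hp', k1, k2, k3⟩
      rw [B3.tc_add_pi, B3.tc_add_pi] at k2 k3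
      exact ⟨p, hp, p', hp', k1, by linarith, by linarith⟩
    apply hback
    rcases lt_or_gt_of_ne hs0 with hs2 | hs2
    · rw [abs_of_neg hs2] at hs1
      exact h C C' (φ + π) x y (-s) hC hC' hX' hlow ⟨z, hz, hz'⟩ hs1
        (by rw [hs, he]; push_cast; ring) ht' hq1 hq2
    · rw [abs_of_pos hs2] at hs1
      have := h C C' (φ + π) y x s hC hC' hX'
        (by rw [htc']; exact hlow) ⟨z, hz, by rw [htc']; exact hz'⟩ hs1
        (by rw [hs, he]; ring) (by rw [htc']; exact ht') hq2 hq1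
      rw [htc'] at this
      exact this

theorem t_gfl (hFLX : FLXStmt) (hFLB : FLBStmt) (hWFL : WFLStmt) : GFLStmt := by
  intro r R κ hr hκ
  rcases le_or_gt R 0 with hR | hR
  · refine ⟨1, one_pos, ?_⟩
    intro C C' φ x a b hC
    have := rad_bd hC 0
    linarith
  obtain ⟨ε, hε, h⟩ := two_pts_full hFLX hFLB hr hκ hR
  refine ⟨ε, hε, ?_⟩
  intro C C' φ x a b hC hC' hX hS hL hq1 hq2 ha hb hax hxb _
  obtain ⟨p, hp, p', hp', hne, k1, k2⟩ := h C C' φ x hC hC' hX hS hL hq1 hq2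
  obtain ⟨w1, w2, _, _, w5, _, w7, _, _⟩ := hWFL C C' φ hC.body hC'.body hX hS
  have hF := (hFLX C φ hC.body hS).1
  have h2 : ∃ z ∈ interior (C ∩ C'), tc φ z = tc φ (pt C x) := by
    obtain ⟨z, hz, hzt⟩ := w2 p hp p' hp' hne (by rw [k1, k2])
    exact ⟨z, hz, by rw [hzt, k1]⟩
  have key : ∀ y ∈ EE C C', (y < x → fl C φ x < fl (C ∩ C') φ y) ∧
      (x < y → fl (C ∩ C') φ y < fl C φ x) := by
    intro y hy
    by_cases hfx : Fx (fl (C ∩ C') φ) y
    · exact gfl_tip hFLX hFLB hC.body hS w1 w2 (B3.pt_inter hC.body hC'.body hy).1 hfx h2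
    · rw [← (w5 y hy hfx).1]
      exact ⟨fun h => hF.anti h, fun h => hF.anti h⟩
  exact ⟨(key b hb).2 hxb, (key a ha).1 hax⟩

end Pool.XR2
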