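import Pool.Agent.H7.XR2.Bas
import Pool.Agent.H91.XR.B2

/-!
# Project XR2: areas of sectors which belong to chords
-/

set_option autoImplicit false

open MeasureTheory Set Filter Topology Metric Asymptotics
open scoped Real ENNReal NNReal

namespace Pool.XR2

open Pool.Agent.H45.XR

/-- A fixed triangle. -/
def T0 : Set ℂ := {w | 0 < w.re ∧ 0 < w.im ∧ w.re + w.im ≤ 1}

/-- `w ↦ w.re P + w.im Q`. -/
noncomputable def MM (P Q : ℂ) : ℂ →ₗ[ℝ] ℂ where
  toFun w := (w.re : ℂ) * P + (w.im : ℂ) * Q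
  map_add' x y := by push_cast [Complex.add_re, Complex.add_im]; ring
  map_smul' c x := by
    simp only [Complex.real_smul, Complex.mul_re, Complex.mul_im, Complex.ofReal_re,
      Complex.ofReal_im, RingHom.id_apply]
    push_cast
    ring

theorem MM_apply (P Q w : ℂ) : MM P Q w = (w.re : ℂ) * P + (w.im : ℂ) * Q := rfl

theorem MM_det (P Q : ℂ) : LinearMap.det (MM P Q) = P.re * Q.im - P.im * Q.re := by
  rw [← LinearMap.det_toMatrix Complex.basisOneI, Matrix.det_fin_two]
  simp only [LinearMap.toMatrix_apply, Complex.coe_basisOneI, MM_apply, Complex.coe_basisOneI_repr]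
  simp
  ring

/-- The area of the triangle between the origin and a chord. -/
theorem vol_tri {D : Set ℂ} (hD : Body D) {φ α β s : ℝ} (hs : 0 < s) (hab : α < β)
    (hb : β ≤ α + π) (h : pt D β = pt D α + s * e φ) :
    volume (Sec α β ∩ {z | tc φ (pt D α) ≤ tc φ z}) =
      ENNReal.ofReal (s * (-tc φ (pt D α))) * volume T0 := by
  obtain ⟨e1, e2, e3⟩ := chord_eqs h
  have ha0 := rad_pos hD α
  have hb0 := rad_pos hD β
  have htc : tc φ (pt D β) = tc φ (pt D α) := by
    rw [h, tc_add, tc_mul, tc_e_self]; ring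
  obtain ⟨t, ht⟩ : ∃ t : ℝ, t = tc φ (pt D α) := ⟨_, rfl⟩
  rw [← ht] at e3 htc ⊢
  rcases hb.lt_or_eq with hlt | heq
  · have hsin : 0 < Real.sin (β - α) :=
      Real.sin_pos_of_pos_of_lt_pi (by linarith) (by linarith)
    have ht0 : t < 0 := by
      have : t * s < 0 := by rw [e3]; have := mul_pos (mul_pos ha0 hb0) hsin; linarith
      by_contra h0
      have := mul_nonneg (not_lt.1 h0) hs.le
      linarith
    obtain ⟨P, hP⟩ : ∃ P : ℂ, P = pt D α := ⟨_, rfl⟩
    obtain ⟨Q, hQ⟩ : ∃ Q : ℂ, Q = pt D β := ⟨_, rfl⟩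
    have tP : tc φ P = t := by rw [hP, ht]
    have tQ : tc φ Q = t := by rw [hQ]; exact htc
    have aP : tc α P = 0 := by rw [hP, tc_pt, sub_self, Real.sin_zero, mul_zero]
    have bQ : tc β Q = 0 := by rw [hQ, tc_pt, sub_self, Real.sin_zero, mul_zero]
    have aQ : 0 < tc α Q := by rw [hQ, tc_pt]; positivity
    have bP : tc β P < 0 := by
      rw [hP, tc_pt, show α - β = -(β - α) by ring, Real.sin_neg]
      have := mul_pos ha0 hsin
      linarith
    have himg : Sec α β ∩ {z | t ≤ tc φ z} = MM P Q '' T0 := by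
      ext z
      constructor
      · rintro ⟨⟨h1, h2⟩, h3⟩
        have h3' : t ≤ tc φ z := h3
        refine ⟨⟨tc β z / tc β P, tc α z / tc α Q⟩, ?_, ?_⟩
        · have hz : z = MM P Q ⟨tc β z / tc β P, tc α z / tc α Q⟩ := by
            rw [MM_apply]
            refine eq_of_tc_tc hab hlt ?_ ?_
            · rw [tc_add, tc_mul, tc_mul, aP, mul_zero, zero_add, div_mul_cancel₀ _ aQ.ne']
            · rw [tc_add, tc_mul, tc_mul, bQ, mul_zero, add_zero, div_mul_cancel₀ _ bP.ne]
          refine ⟨div_pos_of_neg_of_neg h2 bP, div_pos h1 aQ, ?_⟩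
          have h4 : tc φ z = (tc β z / tc β P + tc α z / tc α Q) * t := by
            conv_lhs => rw [hz]
            rw [MM_apply, tc_add, tc_mul, tc_mul, tP, tQ]
            ring
          rw [h4] at h3'
          show tc β z / tc β P + tc α z / tc α Q ≤ 1
          nlinarith
        · rw [MM_apply]
          refine (eq_of_tc_tc hab hlt ?_ ?_).symm
          · rw [tc_add, tc_mul, tc_mul, aP, mul_zero, zero_add, div_mul_cancel₀ _ aQ.ne']
          · rw [tc_add, tc_mul, tc_mul, bQ, mul_zero, add_zero, div_mul_cancel₀ _ bP.ne]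
      · rintro ⟨w, ⟨h1, h2, h3⟩, rfl⟩
        rw [MM_apply]
        refine ⟨⟨?_, ?_⟩, ?_⟩
        · rw [tc_add, tc_mul, tc_mul, aP, mul_zero, zero_add]
          exact mul_pos h2 aQ
        · rw [tc_add, tc_mul, tc_mul, bQ, mul_zero, add_zero]
          exact mul_neg_of_pos_of_neg h1 bP
        · show t ≤ tc φ _
          rw [tc_add, tc_mul, tc_mul, tP, tQ]
          nlinarith
    rw [himg, MeasureTheory.Measure.addHaar_image_linearMap, MM_det]
    congr 2
    have h5 : P.re * Q.im - P.im * Q.re = s * -t := by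
      have h6 : Q = P + s * e φ := by rw [hQ, hP]; exact h
      rw [h6, ← tP]
      simp only [Complex.add_re, Complex.add_im, Complex.mul_re, Complex.mul_im,
        Complex.ofReal_re, Complex.ofReal_im, e_re, e_im, tc]
      ring
    rw [h5, abs_of_pos (mul_pos hs (by linarith))]
  · have ht0 : t = 0 := by
      have h1 : t * s = 0 := by
        rw [e3, heq, add_sub_cancel_left, Real.sin_pi]; ring
      exact (mul_eq_zero.1 h1).resolve_right hs.ne'
    have hsa : Real.sin (φ - α) = 0 := by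
      have h1 : rad D β * Real.sin (β - α) = 0 := by
        rw [heq, add_sub_cancel_left, Real.sin_pi, mul_zero]
      rw [e1] at h1
      exact (mul_eq_zero.1 h1).resolve_left hs.ne'
    have hemp : Sec α β ∩ {z | t ≤ tc φ z} = ∅ := by
      ext z
      simp only [mem_inter_iff, Sec, mem_ofPred_eq, mem_empty_iff_false, iff_false, not_and,
        not_le]
      rintro ⟨h1, h2⟩
      -- `e φ = - e α`
      have hre : Real.cos (φ - α) = -1 := by
        have h3 := congrArg (yc α) h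
        rw [yc_pt, yc_add, yc_pt, yc_mul, yc_e, heq] at h3
        simp only [add_sub_cancel_left, Real.cos_pi, sub_self, Real.cos_zero, mul_one] at h3
        have h4 := Real.sin_sq_add_cos_sq (φ - α)
        rw [hsa] at h4
        have hbp : 0 < rad D (α + π) := rad_pos hD _
        have h5 : s * Real.cos (φ - α) < 0 := by nlinarith
        have h6 : Real.cos (φ - α) < 0 := by
          by_contra hc
          push Not at hc
          have := mul_nonneg hs.le hc
          linarith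
        nlinarith
      have h7 : tc φ z = - tc α z := by
        have h8 : φ = α + (φ - α) := by ring
        unfold tc
        rw [h8, Real.cos_add, Real.sin_add, hsa, hre]
        ring
      rw [h7, ht0]
      linarith
    rw [hemp, ht0]
    simp

/-- Sectors of chords of the same length at the same level have the same area. -/
theorem sec_eq {C C' : Set ℂ} (hC : Body C) (hC' : Body C') {φ α β α' β' s : ℝ}
    (hX : SameX C C' φ) (hs : 0 < s) (h1 : α < β) (h2 : β ≤ α + π) (h1' : α' < β')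
    (h2' : β' ≤ α' + π) (h : pt C β = pt C α + s * e φ) (h' : pt C' β' = pt C' α' + s * e φ)
    (ht : tc φ (pt C' α') = tc φ (pt C α)) :
    ∫ x in α..β, rad C x ^ 2 = ∫ x in α'..β', rad C' x ^ 2 := by
  have hpi := Real.pi_pos
  have key : ∀ (D : Set ℂ) (a b : ℝ), Body D → a < b → b ≤ a + π → pt D b = pt D a + s * e φ →
      ENNReal.ofReal (∫ x in a..b, rad D x ^ 2 / 2) =
        volume (D ∩ {z | tc φ z < tc φ (pt D a)}) +
          ENNReal.ofReal (s * (-tc φ (pt D a))) * volume T0 := by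
    intro D a b hD hab hb hch
    rw [← vol_sector hD hab.le (by linarith) (meas_Sec a b)
      (fun s hs hsb r hr => mem_Sec hab hb hs hsb hr), chord_sector hD hs hab hb hch,
      measure_union _ ((meas_Sec a b).inter
        (measurableSet_le measurable_const (continuous_tc φ).measurable)),
      vol_tri hD hs hab hb hch]
    rw [Set.disjoint_left]
    rintro z ⟨_, h5⟩ ⟨_, h6⟩
    simp only [mem_ofPred_eq] at h5 h6
    linarith
  have k1 := key C α β hC h1 h2 h
  have k2 := key C' α' β' hC' h1' h2' h'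
  rw [ht, ← sameX_half hC.cpt hC'.cpt hX, ← k1, ENNReal.ofReal_eq_ofReal_iff] at k2
  · have e1 : ∀ (D : Set ℂ) (a b : ℝ), ∫ x in a..b, rad D x ^ 2 =
        2 * ∫ x in a..b, rad D x ^ 2 / 2 := by
      intro D a b
      rw [intervalIntegral.integral_div]
      ring
    rw [e1, e1 C', k2]
  · exact intervalIntegral.integral_nonneg h1'.le fun s _ => by positivity
  · exact intervalIntegral.integral_nonneg h1.le fun s _ => by positivity

/-- The area of a thin sector. -/
theorem arc_est {r R : ℝ} (hr : 0 < r) (hR : 0 < R) : ∃ c > 0, ∃ B > 0, ∃ δ₀ > 0,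
    ∀ (D : Set ℂ) (P : ℂ) (p α α' φ δ : ℝ), Bd r R D → r ≤ p → p ≤ R → P = (p : ℂ) * e α →
      pt D α' = P + δ * e φ → |δ| ≤ δ₀ → α - π ≤ α' → α' < α + π →
      |α' - α| ≤ c * |δ| ∧ |(∫ x in α..α', rad D x ^ 2) + δ * tc φ P| ≤ B * δ ^ 2 := by
  have hpi := Real.pi_pos
  obtain ⟨c, hc⟩ : ∃ c : ℝ, c = π / 2 * (R / r ^ 2) := ⟨_, rfl⟩
  have hc0 : 0 < c := by rw [hc]; positivity
  obtain ⟨δ₀, hδ₀⟩ : ∃ δ₀ : ℝ, δ₀ = min (r ^ 2 / (2 * R)) (1 / c) := ⟨_, rfl⟩
  refine ⟨c, hc0, 2 * R * (R ^ 2 / r) * c ^ 2 + R * c + R ^ 2 * c ^ 2, by positivity, δ₀,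
    by rw [hδ₀]; positivity, ?_⟩
  intro D P p α α' φ δ hD hp1 hp2 hP hpt hδ h1 h2
  have hd1 : |δ| ≤ r ^ 2 / (2 * R) := hδ.trans (by rw [hδ₀]; exact min_le_left _ _)
  have hd2 : |δ| ≤ 1 / c := hδ.trans (by rw [hδ₀]; exact min_le_right _ _)
  have hp0 : 0 < p := hr.trans_le hp1
  obtain ⟨p₁, hp₁⟩ : ∃ p₁ : ℝ, p₁ = rad D α' := ⟨_, rfl⟩
  have hpb := rad_bd hD α'
  rw [← hp₁] at hpb
  have hp10 : 0 < p₁ := hr.trans_le hpb.1
  obtain ⟨ω, hω⟩ : ∃ ω : ℝ, ω = α' - α := ⟨_, rfl⟩
  -- coordinates along and across `e α`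
  have t1 : p₁ * Real.sin ω = δ * Real.sin (φ - α) := by
    have := congrArg (tc α) hpt
    rw [tc_pt, tc_add, hP, tc_mul, tc_mul, tc_e_self, tc_e, ← hp₁, ← hω] at this
    linarith
  have t2 : p₁ * Real.cos ω = p + δ * Real.cos (φ - α) := by
    have := congrArg (yc α) hpt
    rw [yc_pt, yc_add, hP, yc_mul, yc_mul, yc_e_self, yc_e, ← hp₁, ← hω] at this
    linarith
  have t3 : tc φ P = -(p * Real.sin (φ - α)) := by
    rw [hP, tc_mul, tc_e, show α - φ = -(φ - α) by ring, Real.sin_neg]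
    ring
  have hrR : r ≤ R := hp1.trans hp2
  have hd3 : |δ| < r := by
    refine lt_of_le_of_lt hd1 ?_
    rw [div_lt_iff₀ (by positivity)]
    nlinarith
  have hcosω : 0 < Real.cos ω := by
    have h3 : |δ * Real.cos (φ - α)| ≤ |δ| := by
      rw [abs_mul]
      exact mul_le_of_le_one_right (abs_nonneg _) (Real.abs_cos_le_one _)
    have h4 := neg_abs_le (δ * Real.cos (φ - α))
    have h5 : 0 < p₁ * Real.cos ω := by rw [t2]; linarith
    exact (pos_iff_pos_of_mul_pos h5).1 hp10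
  have hω1 : |ω| < π / 2 := by
    rw [abs_lt]
    constructor
    · by_contra hcn
      push Not at hcn
      have h3 : Real.cos (-ω) ≤ 0 :=
        Real.cos_nonpos_of_pi_div_two_le_of_le (by linarith) (by linarith)
      rw [Real.cos_neg] at h3
      linarith
    · by_contra hcn
      push Not at hcn
      have h3 : Real.cos ω ≤ 0 :=
        Real.cos_nonpos_of_pi_div_two_le_of_le (by linarith) (by linarith)
      linarith
  have hsinω : 2 / π * |ω| ≤ |Real.sin ω| := by
    rcases le_total 0 ω with h | h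
    · rw [abs_of_nonneg h] at hω1 ⊢
      rw [abs_of_nonneg (Real.sin_nonneg_of_nonneg_of_le_pi h (by linarith))]
      exact Real.mul_le_sin h hω1.le
    · rw [abs_of_nonpos h] at hω1 ⊢
      have h3 := Real.mul_le_sin (x := -ω) (by linarith) hω1.le
      rw [Real.sin_neg] at h3
      exact h3.trans (neg_le_abs _)
  have hωc : |ω| ≤ c * |δ| := by
    have h3 : p₁ * |Real.sin ω| ≤ |δ| := by
      have := congrArg abs t1
      rw [abs_mul, abs_mul, abs_of_pos hp10] at this
      rw [this]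
      exact mul_le_of_le_one_right (abs_nonneg _) (Real.abs_sin_le_one _)
    have h4 : r * (2 / π * |ω|) ≤ |δ| := by
      calc r * (2 / π * |ω|) ≤ p₁ * |Real.sin ω| :=
            mul_le_mul hpb.1 hsinω (by positivity) hp10.le
        _ ≤ |δ| := h3
    have h5 : |ω| = π / (2 * r) * (r * (2 / π * |ω|)) := by field_simp
    have h6 : π / (2 * r) ≤ c := by
      rw [hc]
      have : 1 / r ≤ R / r ^ 2 := by
        rw [div_le_div_iff₀ hr (by positivity)]
        nlinarith
      calc π / (2 * r) = π / 2 * (1 / r) := by field_simp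
        _ ≤ _ := mul_le_mul_of_nonneg_left this (by positivity)
    calc |ω| = π / (2 * r) * (r * (2 / π * |ω|)) := h5
      _ ≤ c * |δ| := mul_le_mul h6 h4 (by positivity) hc0.le
  have hω2 : |ω| ≤ 1 := by
    calc |ω| ≤ c * |δ| := hωc
      _ ≤ c * (1 / c) := mul_le_mul_of_nonneg_left hd2 hc0.le
      _ = 1 := by field_simp
  refine ⟨by rw [← hω]; exact hωc, ?_⟩
  -- the integral
  have i1 : |(∫ x in α..α', rad D x ^ 2) - p₁ ^ 2 * ω| ≤ 2 * R * (R ^ 2 / r) * ω ^ 2 := by
    have hcont : Continuous fun x => rad D x ^ 2 := (cont_rad hD.body).pow 2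
    have h3 : (∫ x in α..α', rad D x ^ 2) - p₁ ^ 2 * ω =
        ∫ x in α..α', (rad D x ^ 2 - p₁ ^ 2) := by
      rw [intervalIntegral.integral_sub (hcont.intervalIntegrable _ _)
        (continuous_const.intervalIntegrable _ _), intervalIntegral.integral_const, smul_eq_mul,
        ← hω]
      ring
    rw [h3]
    have h4 : ∀ x ∈ uIoc α α', ‖rad D x ^ 2 - p₁ ^ 2‖ ≤ 2 * R * (R ^ 2 / r) * |ω| := by
      intro x hx
      have h5 : |x - α'| ≤ |ω| := by
        rw [hω]
        rcases le_total α α' with h6 | h6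
        · rw [uIoc_of_le h6] at hx
          rw [abs_of_nonpos (by linarith [hx.2]), abs_of_nonneg (by linarith)]
          linarith [hx.1]
        · rw [uIoc_of_ge h6] at hx
          rw [abs_of_nonneg (by linarith [hx.1]), abs_of_nonpos (by linarith)]
          linarith [hx.2]
      have h7 := rad_lip hr hD x α'
      rw [← hp₁] at h7
      have h8 := rad_bd hD x
      rw [Real.norm_eq_abs]
      have h9 : rad D x ^ 2 - p₁ ^ 2 = (rad D x - p₁) * (rad D x + p₁) := by ring
      rw [h9, abs_mul]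
      have h10 : |rad D x + p₁| ≤ 2 * R := by
        rw [abs_of_pos (by linarith)]
        linarith [h8.2, hpb.2]
      calc |rad D x - p₁| * |rad D x + p₁| ≤ (R ^ 2 / r * |ω|) * (2 * R) :=
            mul_le_mul (h7.trans (mul_le_mul_of_nonneg_left h5 (by positivity))) h10
              (abs_nonneg _) (by positivity)
        _ = _ := by ring
    have h5 := intervalIntegral.norm_integral_le_of_norm_le_const h4
    rw [Real.norm_eq_abs, ← hω] at h5
    refine h5.trans (le_of_eq ?_)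
    rw [mul_assoc, ← sq, sq_abs]
  have i2 : δ * tc φ P = -(p * p₁ * Real.sin ω) := by
    rw [t3]
    linear_combination (-p) * (-t1)
  have i3 : |p₁ - p| ≤ |δ| := by
    have h3 : p₁ = ‖P + δ * e φ‖ := by rw [← hpt, norm_pt hD.body]; exact hp₁
    have h4 : p = ‖P‖ := by
      rw [hP, norm_mul, norm_e, mul_one, Complex.norm_real, Real.norm_eq_abs, abs_of_pos hp0]
    rw [h3, h4]
    refine (abs_norm_sub_norm_le _ _).trans ?_
    rw [add_sub_cancel_left, norm_mul, norm_e, mul_one, Complex.norm_real, Real.norm_eq_abs]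
  have i4 : |ω - Real.sin ω| ≤ ω ^ 2 := by
    have h3 := Real.sin_bound hω2
    have h4 : ω - Real.sin ω = -(Real.sin ω - (ω - ω ^ 3 / 6)) + ω ^ 3 / 6 := by ring
    rw [h4]
    refine (abs_add_le _ _).trans ?_
    rw [abs_neg]
    have h5 : |ω ^ 3 / 6| ≤ ω ^ 2 / 6 := by
      rw [abs_div, abs_pow, abs_of_pos (by norm_num : (0 : ℝ) < 6)]
      have : |ω| ^ 3 ≤ ω ^ 2 := by
        rw [← sq_abs ω]
        calc |ω| ^ 3 = |ω| ^ 2 * |ω| := by ring
          _ ≤ |ω| ^ 2 * 1 := mul_le_mul_of_nonneg_left hω2 (by positivity)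
          _ = |ω| ^ 2 := mul_one _
      exact div_le_div_of_nonneg_right this (by norm_num)
    have h6 : |ω| ^ 5 ≤ ω ^ 2 := by
      rw [← sq_abs ω]
      calc |ω| ^ 5 = |ω| ^ 2 * |ω| ^ 3 := by ring
        _ ≤ |ω| ^ 2 * 1 := mul_le_mul_of_nonneg_left (pow_le_one₀ (abs_nonneg _) hω2)
          (by positivity)
        _ = |ω| ^ 2 := mul_one _
    nlinarith [sq_nonneg ω]
  have i5 : |p₁ ^ 2 * ω - p * p₁ * Real.sin ω| ≤ R * c * δ ^ 2 + R ^ 2 * ω ^ 2 := by
    have h3 : p₁ ^ 2 * ω - p * p₁ * Real.sin ω =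
        p₁ * ((p₁ - p) * ω) + p * p₁ * (ω - Real.sin ω) := by ring
    rw [h3]
    refine (abs_add_le _ _).trans (add_le_add ?_ ?_)
    · rw [abs_mul, abs_mul, abs_of_pos hp10]
      have h4 : |p₁ - p| * |ω| ≤ |δ| * (c * |δ|) :=
        mul_le_mul i3 hωc (abs_nonneg _) (abs_nonneg _)
      calc p₁ * (|p₁ - p| * |ω|) ≤ R * (|δ| * (c * |δ|)) :=
            mul_le_mul hpb.2 h4 (by positivity) hR.le
        _ = R * c * δ ^ 2 := by rw [← sq_abs δ]; ring
    · rw [abs_mul, abs_mul, abs_of_pos hp0, abs_of_pos hp10]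
      calc p * p₁ * |ω - Real.sin ω| ≤ R * R * ω ^ 2 :=
            mul_le_mul (mul_le_mul hp2 hpb.2 hp10.le hR.le) i4 (abs_nonneg _) (by positivity)
        _ = R ^ 2 * ω ^ 2 := by ring
  have hω3 : ω ^ 2 ≤ c ^ 2 * δ ^ 2 := by
    rw [← sq_abs ω, ← sq_abs δ]
    calc |ω| ^ 2 ≤ (c * |δ|) ^ 2 := pow_le_pow_left₀ (abs_nonneg _) hωc 2
      _ = c ^ 2 * |δ| ^ 2 := by ring
  have h3 : (∫ x in α..α', rad D x ^ 2) + δ * tc φ P =
      ((∫ x in α..α', rad D x ^ 2) - p₁ ^ 2 * ω) + (p₁ ^ 2 * ω - p * p₁ * Real.sin ω) := by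
    rw [i2]; ring
  rw [h3]
  refine (abs_add_le _ _).trans ?_
  have h4 : 2 * R * (R ^ 2 / r) * ω ^ 2 ≤ 2 * R * (R ^ 2 / r) * (c ^ 2 * δ ^ 2) :=
    mul_le_mul_of_nonneg_left hω3 (by positivity)
  have h5 : R ^ 2 * ω ^ 2 ≤ R ^ 2 * (c ^ 2 * δ ^ 2) :=
    mul_le_mul_of_nonneg_left hω3 (by positivity)
  calc |(∫ x in α..α', rad D x ^ 2) - p₁ ^ 2 * ω| + |p₁ ^ 2 * ω - p * p₁ * Real.sin ω| ≤
        2 * R * (R ^ 2 / r) * (c ^ 2 * δ ^ 2) + (R * c * δ ^ 2 + R ^ 2 * (c ^ 2 * δ ^ 2)) := by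
          linarith
    _ = _ := by ring

end Pool.XR2
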