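import Pool.Agent.H7.XR2.Dlt
import Pool.Agent.H7.XR2.Sct
import Pool.Agent.H7.XR2.DIR
import Pool.Agent.H65.XR.B3

/-!
# Project XR2, row PSA: change of the area along a chord
-/

set_option autoImplicit false

open MeasureTheory Set Filter Topology Metric Asymptotics
open scoped Real ENNReal NNReal

namespace Pool.XR2

open Pool.Agent.H45.XR

theorem sin_nonneg_le_pi {u : ℝ} (h1 : u < 2 * π) (h2 : 0 ≤ Real.sin u) : u ≤ π := by
  have hpi := Real.pi_pos
  by_contra hc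
  push Not at hc
  have h3 : 0 < Real.sin (u - π) := Real.sin_pos_of_pos_of_lt_pi (by linarith) (by linarith)
  rw [Real.sin_sub_pi] at h3
  linarith

/-- The estimate for a chord in normal position. -/
theorem psa_core {r R κ : ℝ} (hr : 0 < r) (hκ : 0 < κ) (hR : 0 < R) : ∃ ε > 0, ∃ B > 0,
    ∀ (C C' : Set ℂ) (φ α β s : ℝ), Bd r R C → Bd r R C' → SameX C C' φ →
      (∃ z ∈ C, tc φ z + κ ≤ tc φ (pt C α)) → (∃ z ∈ interior C, tc φ z = tc φ (pt C α)) →
      r * κ / R ≤ s → pt C β = pt C α + s * e φ → tc φ (pt C α) ≤ 0 → α < β → β < α + 2 * π →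
      |rad C' α - rad C α| ≤ ε → |rad C' β - rad C β| ≤ ε →
      ∃ δ : ℝ, |Psi C C' β - Psi C C' α| ≤ B * δ ^ 2 ∧ |δ| ≤ B * |rad C' α - rad C α| ∧
        |δ| ≤ B * |rad C' β - rad C β| ∧ |rad C' α - rad C α| ≤ B * |δ| ∧
        |rad C' β - rad C β| ≤ B * |δ| := by
  have hpi := Real.pi_pos
  obtain ⟨c₁, hc₁⟩ : ∃ c₁ : ℝ, c₁ = r * κ / R := ⟨_, rfl⟩
  have hc10 : 0 < c₁ := by rw [hc₁]; positivity
  obtain ⟨c₂, hc20, hc21, hmid⟩ := mid_deep (r := r) (κ := κ / 2) (by positivity) hc10 hR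
  obtain ⟨c, hc, B₁, hB₁, δ₀, hδ₀, harc⟩ := arc_est hr hR
  obtain ⟨L, hL⟩ : ∃ L : ℝ, L = R + R ^ 2 / r := ⟨_, rfl⟩
  have hL0 : 0 < L := by rw [hL]; positivity
  obtain ⟨δ₁, hδ₁⟩ : ∃ δ₁ : ℝ, δ₁ = min δ₀ (min (c₁ / (4 * c * L)) (π / (4 * c))) := ⟨_, rfl⟩
  have hδ10 : 0 < δ₁ := by rw [hδ₁]; positivity
  obtain ⟨ε, hε⟩ : ∃ ε : ℝ, ε = min (r * c₂ / 2) (r * c₂ * δ₁ / R) := ⟨_, rfl⟩
  have hε0 : 0 < ε := by rw [hε]; positivity
  rw [← hc₁]
  refine ⟨ε, hε0, 2 * B₁ + R / (r * c₂) + R / r, by positivity, ?_⟩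
  intro C C' φ α β s hC hC' hX hlow hint hs hch ht hab hba hq1 hq2
  have hs0 : 0 < s := hc10.trans_le hs
  obtain ⟨δ, hδ⟩ := shift_ex hC.body hC'.body hX hs0 (pt_mem hC.body α)
    (pt_notMem_interior hC.body α) (by rw [← hch]; exact pt_mem hC.body β)
    (by rw [← hch]; exact pt_notMem_interior hC.body β) hint
  obtain ⟨P, hP⟩ : ∃ P : ℂ, P = pt C α := ⟨_, rfl⟩
  obtain ⟨n1, n2⟩ := end_nint hδ
  have m1 := (hδ δ).2 ⟨le_rfl, by linarith⟩
  have m2 := (hδ (δ + s)).2 ⟨by linarith, le_rfl⟩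
  -- the middle
  have hgm : gauge C' (pt C α + ((δ + s / 2 : ℝ) : ℂ) * e φ) ≤ 1 - c₂ := by
    have h1 : tc φ (pt C α + (δ : ℂ) * e φ) = tc φ (pt C α) := by
      rw [tc_add, tc_mul, tc_e_self, mul_zero, add_zero]
    have h2 := hmid C' φ s (pt C α + (δ : ℂ) * e φ) hC' hs m1
      (by
        have : pt C α + (δ : ℂ) * e φ + (s : ℂ) * e φ = pt C α + ((δ + s : ℝ) : ℂ) * e φ := by
          push_cast; ring
        rw [this]; exact m2)
      (by rw [h1]; exact ht) (by rw [h1]; exact level_ex hC.body hX hκ hlow)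
    have h3 : pt C α + (δ : ℂ) * e φ + ((s / 2 : ℝ) : ℂ) * e φ =
        pt C α + ((δ + s / 2 : ℝ) : ℂ) * e φ := by
      push_cast; ring
    rw [h3] at h2
    exact h2
  have hCh : Ch r R c₁ c₂ C C' φ α β s δ := ⟨hr, hc10, hc20, hC, hC', hs, hch, hδ, ht, hgm⟩
  have hεc : ε < r * c₂ := by
    have h1 : ε ≤ r * c₂ / 2 := by rw [hε]; exact min_le_left _ _
    have h2 : 0 < r * c₂ := by positivity
    linarith
  obtain ⟨d1, d2, d3, d4, d5⟩ := hCh.est hεc hq1 hq2
  have hδsm : |δ| ≤ δ₁ := by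
    have h1 : ε ≤ r * c₂ * δ₁ / R := by rw [hε]; exact min_le_right _ _
    have h2 : c₂ * |δ| ≤ R / r * (r * c₂ * δ₁ / R) :=
      d2.trans (mul_le_mul_of_nonneg_left (hq1.trans h1) (by positivity))
    have h3 : R / r * (r * c₂ * δ₁ / R) = c₂ * δ₁ := by field_simp
    rw [h3] at h2
    exact le_of_mul_le_mul_left h2 hc20
  have hδa : |δ| ≤ δ₀ := hδsm.trans (by rw [hδ₁]; exact min_le_left _ _)
  have hδb : |δ| ≤ c₁ / (4 * c * L) :=
    hδsm.trans (by rw [hδ₁]; exact (min_le_right _ _).trans (min_le_left _ _))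
  have hδc : |δ| ≤ π / (4 * c) :=
    hδsm.trans (by rw [hδ₁]; exact (min_le_right _ _).trans (min_le_right _ _))
  -- the angles of the shifted chord
  obtain ⟨α', hα', hpa⟩ := exists_pt hC'.body m1 n1 (α - π)
  have hQδ : pt C β + (δ : ℂ) * e φ = pt C α + ((δ + s : ℝ) : ℂ) * e φ := by
    rw [hch]; push_cast; ring
  obtain ⟨β', hβ', hpb⟩ := exists_pt hC'.body m2 n2 (β - π)
  rw [← hQδ] at hpb
  have ba := rad_bd hC α
  have bb := rad_bd hC β
  obtain ⟨a1, a2⟩ := harc C' (pt C α) (rad C α) α α' φ δ hC' ba.1 ba.2 rfl hpa hδa hα'.1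
    (by linarith [hα'.2])
  obtain ⟨b1, b2⟩ := harc C' (pt C β) (rad C β) β β' φ δ hC' bb.1 bb.2 rfl hpb hδa hβ'.1
    (by linarith [hβ'.2])
  have htb : tc φ (pt C β) = tc φ (pt C α) := by
    rw [hch, tc_add, tc_mul, tc_e_self, mul_zero, add_zero]
  rw [htb] at b2
  -- positions
  have hcδ1 : 4 * (c * |δ|) ≤ c₁ / L := by
    calc 4 * (c * |δ|) ≤ 4 * (c * (c₁ / (4 * c * L))) := by
          have := mul_le_mul_of_nonneg_left hδb hc.le
          linarith
      _ = c₁ / L := by field_simp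
  have hcδ2 : 4 * (c * |δ|) ≤ π := by
    calc 4 * (c * |δ|) ≤ 4 * (c * (π / (4 * c))) := by
          have := mul_le_mul_of_nonneg_left hδc hc.le
          linarith
      _ = π := by field_simp
  have hβα : c₁ / L ≤ β - α := by
    have h1 := pt_lip hr hC β α
    rw [hch, add_sub_cancel_left, norm_re, abs_of_pos hs0, ← hL,
      abs_of_pos (by linarith : 0 < β - α)] at h1
    rw [div_le_iff₀ hL0]
    nlinarith
  have hsab : β - α ≤ π := by
    refine sin_nonneg_le_pi (by linarith) ?_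
    have h1 := (chord_eqs hch).2.2
    have h2 : 0 < rad C α * rad C β := mul_pos (rad_pos hC.body α) (rad_pos hC.body β)
    by_contra hcn
    push Not at hcn
    have h3 : 0 < -(rad C α * rad C β * Real.sin (β - α)) := by
      have := mul_neg_of_pos_of_neg h2 hcn
      linarith
    rw [← h1] at h3
    have := mul_nonpos_of_nonpos_of_nonneg ht hs0.le
    linarith
  have a1' := abs_le.1 a1
  have b1' := abs_le.1 b1
  have hab' : α' < β' := by
    have : 0 < c₁ / L := by positivity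
    linarith [a1'.2, b1'.1]
  have hch'' : pt C' β' = pt C' α' + s * e φ := by
    rw [hpa, hpb, hch]; ring
  have hta : tc φ (pt C' α') = tc φ (pt C α) := by
    rw [hpa, tc_add, tc_mul, tc_e_self, mul_zero, add_zero]
  have hsab' : β' - α' ≤ π := by
    refine sin_nonneg_le_pi (by linarith [a1'.1, b1'.2]) ?_
    have h1 := (chord_eqs hch'').2.2
    have h2 : 0 < rad C' α' * rad C' β' := mul_pos (rad_pos hC'.body α') (rad_pos hC'.body β')
    by_contra hcn
    push Not at hcn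
    have h3 : 0 < -(rad C' α' * rad C' β' * Real.sin (β' - α')) := by
      have := mul_neg_of_pos_of_neg h2 hcn
      linarith
    rw [← h1, hta] at h3
    have := mul_nonpos_of_nonpos_of_nonneg ht hs0.le
    linarith
  have hsec := sec_eq hC.body hC'.body hX hs0 hab (by linarith) hab' (by linarith) hch hch'' hta
  have hcont : Continuous fun x => rad C' x ^ 2 := (cont_rad hC'.body).pow 2
  have hPsi : Psi C C' β - Psi C C' α =
      (∫ x in α..β, rad C' x ^ 2) - ∫ x in α..β, rad C x ^ 2 := by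
    rw [Psi_sub hC.body hC'.body, intervalIntegral.integral_div, intervalIntegral.integral_div]
    ring
  have hsplit : (∫ x in α..β, rad C' x ^ 2) = (∫ x in α..α', rad C' x ^ 2) +
      (∫ x in α'..β', rad C' x ^ 2) - ∫ x in β..β', rad C' x ^ 2 := by
    have h1 := intervalIntegral.integral_add_adjacent_intervals
      (hcont.intervalIntegrable α α') (hcont.intervalIntegrable (μ := volume) α' β')
    have h2 := intervalIntegral.integral_add_adjacent_intervals
      (hcont.intervalIntegrable α β) (hcont.intervalIntegrable (μ := volume) β β')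
    linarith
  have hfin : |Psi C C' β - Psi C C' α| ≤ 2 * B₁ * δ ^ 2 := by
    rw [hPsi, hsplit, hsec]
    have h1 : (∫ x in α..α', rad C' x ^ 2) + (∫ x in α'..β', rad C' x ^ 2) -
        (∫ x in β..β', rad C' x ^ 2) - ∫ x in α'..β', rad C' x ^ 2 =
        ((∫ x in α..α', rad C' x ^ 2) + δ * tc φ (pt C α)) -
        ((∫ x in β..β', rad C' x ^ 2) + δ * tc φ (pt C α)) := by ring
    rw [h1]
    refine (abs_sub _ _).trans ?_
    linarith
  have hδ2 := sq_nonneg δ
  have e1 : |δ| ≤ R / (r * c₂) * |rad C' α - rad C α| := by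
    have h1 : R / (r * c₂) * |rad C' α - rad C α| = R / r * |rad C' α - rad C α| / c₂ := by
      field_simp
    rw [h1, le_div_iff₀ hc20]
    linarith
  have e2 : |δ| ≤ R / (r * c₂) * |rad C' β - rad C β| := by
    have h1 : R / (r * c₂) * |rad C' β - rad C β| = R / r * |rad C' β - rad C β| / c₂ := by
      field_simp
    rw [h1, le_div_iff₀ hc20]
    linarith
  have hx1 : 0 ≤ R / (r * c₂) := by positivity
  have hx2 : 0 ≤ R / r := by positivity
  refine ⟨δ, ?_, ?_, ?_, ?_, ?_⟩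
  · refine hfin.trans (mul_le_mul_of_nonneg_right (by linarith) hδ2)
  · refine e1.trans (mul_le_mul_of_nonneg_right (by linarith) (abs_nonneg _))
  · refine e2.trans (mul_le_mul_of_nonneg_right (by linarith) (abs_nonneg _))
  · refine d4.trans (mul_le_mul_of_nonneg_right (by linarith) (abs_nonneg _))
  · refine d5.trans (mul_le_mul_of_nonneg_right (by linarith) (abs_nonneg _))

theorem rad_int (C : Set ℂ) (θ : ℝ) (k : ℤ) : rad C (θ + k • (2 * π)) = rad C θ := by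
  have : Function.Periodic (rad C) (2 * π) := rad_periodic C
  exact this.zsmul k θ

theorem pt_int (C : Set ℂ) (θ : ℝ) (k : ℤ) : pt C (θ + k • (2 * π)) = pt C θ := by
  have : Function.Periodic (pt C) (2 * π) := pt_periodic C
  exact this.zsmul k θ

/-- The same with arbitrary lifts. -/
theorem psa_pair {r R κ : ℝ} (hr : 0 < r) (hκ : 0 < κ) (hR : 0 < R) : ∃ ε > 0, ∃ B > 0,
    ∀ (C C' : Set ℂ) (φ α β s : ℝ), Bd r R C → Bd r R C' → SameX C C' φ →
      (∃ z ∈ C, tc φ z + κ ≤ tc φ (pt C α)) → (∃ z ∈ interior C, tc φ z = tc φ (pt C α)) →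
      r * κ / R ≤ s → pt C β = pt C α + s * e φ → tc φ (pt C α) ≤ 0 →
      |rad C' α - rad C α| ≤ ε → |rad C' β - rad C β| ≤ ε →
      ∃ δ : ℝ, |Psi C C' β - Psi C C' α| ≤ B * δ ^ 2 ∧ |δ| ≤ B * |rad C' α - rad C α| ∧
        |δ| ≤ B * |rad C' β - rad C β| ∧ |rad C' α - rad C α| ≤ B * |δ| ∧
        |rad C' β - rad C β| ≤ B * |δ| := by
  obtain ⟨ε, hε, B, hB, h⟩ := psa_core hr hκ hR
  refine ⟨ε, hε, B, hB, ?_⟩
  intro C C' φ α β s hC hC' hX hlow hint hs hch ht hq1 hq2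
  obtain ⟨k, hk⟩ : ∃ k : ℤ, toIcoMod Real.two_pi_pos α β + k • (2 * π) = β :=
    ⟨_, toIcoMod_add_toIcoDiv_zsmul Real.two_pi_pos α β⟩
  have hmem := toIcoMod_mem_Ico Real.two_pi_pos α β
  obtain ⟨β', hβ'⟩ : ∃ β' : ℝ, β' = toIcoMod Real.two_pi_pos α β := ⟨_, rfl⟩
  rw [← hβ'] at hk hmem
  have hs0 : 0 < s := lt_of_lt_of_le (by positivity) hs
  have h1 : pt C β' = pt C β := by rw [← hk, pt_int]
  have h2 : rad C β' = rad C β := by rw [← hk, rad_int]
  have h3 : rad C' β' = rad C' β := by rw [← hk, rad_int]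
  have h4 : Psi C C' β' = Psi C C' β := by
    have hV := sameX_volume hC.body.cpt hC'.body.cpt hX
    have hper : Function.Periodic (Psi C C') (2 * π) := Psi_periodic hC.body hC'.body hV
    rw [← hk]
    exact (hper.zsmul k β').symm
  have hne : α ≠ β' := by
    intro h5
    rw [← h1, ← h5] at hch
    have h6 : (s : ℂ) * e φ = 0 := by
      have := congrArg (fun w => w - pt C α) hch
      simpa using this.symm
    rcases mul_eq_zero.1 h6 with h7 | h7
    · have : s = 0 := by exact_mod_cast h7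
      linarith
    · exact e_ne_zero _ h7
  have h5 := h C C' φ α β' s hC hC' hX hlow hint hs (by rw [h1]; exact hch) ht
    (lt_of_le_of_ne hmem.1 hne) hmem.2 hq1 (by rw [h2, h3]; exact hq2)
  rw [h2, h3, h4] at h5
  exact h5

/-- The full statement with the shift. -/
theorem psa_full (hFLX : FLXStmt) (hFLB : FLBStmt) {r R κ : ℝ} (hr : 0 < r) (hκ : 0 < κ)
    (hR : 0 < R) : ∃ ε > 0, ∃ B > 0,
    ∀ (C C' : Set ℂ) (φ x : ℝ), Bd r R C → Bd r R C' → SameX C C' φ → NoSeg C φ → Lv C φ κ x →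
      |rad C' x - rad C x| ≤ ε → |rad C' (fl C φ x) - rad C (fl C φ x)| ≤ ε →
      ∃ δ : ℝ, |Psi C C' (fl C φ x) - Psi C C' x| ≤ B * δ ^ 2 ∧
        |δ| ≤ B * |rad C' x - rad C x| ∧ |δ| ≤ B * |rad C' (fl C φ x) - rad C (fl C φ x)| ∧
        |rad C' x - rad C x| ≤ B * |δ| ∧
        |rad C' (fl C φ x) - rad C (fl C φ x)| ≤ B * |δ| := by
  obtain ⟨ε, hε, B, hB, h⟩ := psa_pair hr hκ hR
  refine ⟨ε, hε, B, hB, ?_⟩
  intro C C' φ x hC hC' hX hS hL hq1 hq2
  obtain ⟨s, hs, hs1⟩ := flip_far hFLX hFLB hr hκ hC hS hL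
  have hc : 0 < r * κ / R := by positivity
  have hs0 : s ≠ 0 := by
    intro h0
    rw [h0, abs_zero] at hs1
    linarith
  obtain ⟨y, hy⟩ : ∃ y : ℝ, y = fl C φ x := ⟨_, rfl⟩
  rw [← hy] at hs hq2 ⊢
  have htc : tc φ (pt C y) = tc φ (pt C x) := by
    rw [hs, tc_add, tc_mul, tc_e_self, mul_zero, add_zero]
  -- an interior point on the line
  have hne : pt C x ≠ pt C y := by
    intro h5
    rw [← h5] at hs
    have h6 : (s : ℂ) * e φ = 0 := by
      have := congrArg (fun w => w - pt C x) hs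
      simpa using this.symm
    rcases mul_eq_zero.1 h6 with h7 | h7
    · exact hs0 (by exact_mod_cast h7)
    · exact e_ne_zero _ h7
  obtain ⟨z, hz, hzt⟩ := hS _ (pt_mem hC.body x) _ (pt_mem hC.body y) hne htc.symm
  have hX' : SameX C C' (φ + π) := B3.sameX_add_pi hX
  have he : e (φ + π) = -e φ := e_add_pi φ
  rcases le_or_gt (tc φ (pt C x)) 0 with ht | ht
  · rcases lt_or_gt_of_ne hs0 with hs2 | hs2
    · rw [abs_of_neg hs2] at hs1
      obtain ⟨δ, k1, k2, k3, k4, k5⟩ := h C C' φ y x (-s) hC hC' hX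
        (by rw [htc]; exact hL.1) ⟨z, hz, by rw [htc]; exact hzt⟩ hs1
        (by rw [hs]; push_cast; ring) (by rw [htc]; exact ht) hq2 hq1
      exact ⟨δ, by rw [abs_sub_comm]; exact k1, k3, k2, k5, k4⟩
    · rw [abs_of_pos hs2] at hs1
      exact h C C' φ x y s hC hC' hX hL.1 ⟨z, hz, hzt⟩ hs1 hs ht hq1 hq2
  · have hlow : ∃ z ∈ C, tc (φ + π) z + κ ≤ tc (φ + π) (pt C x) := by
      obtain ⟨w, hw, hw1⟩ := hL.2
      refine ⟨w, hw, ?_⟩
      rw [B3.tc_add_pi, B3.tc_add_pi]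
      linarith
    have htc' : tc (φ + π) (pt C y) = tc (φ + π) (pt C x) := by
      rw [B3.tc_add_pi, B3.tc_add_pi, htc]
    have ht' : tc (φ + π) (pt C x) ≤ 0 := by
      rw [B3.tc_add_pi]; linarith
    have hz' : tc (φ + π) z = tc (φ + π) (pt C x) := by
      rw [B3.tc_add_pi, B3.tc_add_pi, hzt]
    rcases lt_or_gt_of_ne hs0 with hs2 | hs2
    · rw [abs_of_neg hs2] at hs1
      exact h C C' (φ + π) x y (-s) hC hC' hX' hlow ⟨z, hz, hz'⟩ hs1
        (by rw [hs, he]; push_cast; ring) ht' hq1 hq2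
    · rw [abs_of_pos hs2] at hs1
      obtain ⟨δ, k1, k2, k3, k4, k5⟩ := h C C' (φ + π) y x s hC hC' hX'
        (by rw [htc']; exact hlow) ⟨z, hz, by rw [htc']; exact hz'⟩ hs1
        (by rw [hs, he]; ring) (by rw [htc']; exact ht') hq2 hq1
      exact ⟨δ, by rw [abs_sub_comm]; exact k1, k3, k2, k5, k4⟩

theorem t_psa (hFLX : FLXStmt) (hFLB : FLBStmt) : PSAStmt := by
  intro r R κ hr hκ
  rcases le_or_gt R 0 with hR | hR
  · refine ⟨1, one_pos, 1, one_pos, ?_⟩
    intro C C' φ x hC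
    have := rad_bd hC 0
    linarith
  obtain ⟨ε, hε, B, hB, h⟩ := psa_full hFLX hFLB hr hκ hR
  refine ⟨ε, hε, B * B ^ 2 + B * B, by positivity, ?_⟩
  intro C C' φ x hC hC' hX hS hL hq1 hq2
  obtain ⟨δ, k1, k2, k3, k4, k5⟩ := h C C' φ x hC hC' hX hS hL hq1 hq2
  have h1 : δ ^ 2 ≤ B ^ 2 * (rad C' x - rad C x) ^ 2 := by
    rw [← sq_abs δ, ← sq_abs (rad C' x - rad C x)]
    calc |δ| ^ 2 ≤ (B * |rad C' x - rad C x|) ^ 2 := pow_le_pow_left₀ (abs_nonneg _) k2 2
      _ = _ := by ring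
  have h2 : 0 ≤ (rad C' x - rad C x) ^ 2 := sq_nonneg _
  constructor
  · calc |Psi C C' (fl C φ x) - Psi C C' x| ≤ B * δ ^ 2 := k1
      _ ≤ B * (B ^ 2 * (rad C' x - rad C x) ^ 2) := mul_le_mul_of_nonneg_left h1 hB.le
      _ ≤ (B * B ^ 2 + B * B) * (rad C' x - rad C x) ^ 2 := by
          have : 0 ≤ B * B * (rad C' x - rad C x) ^ 2 := by positivity
          nlinarith
  · calc |rad C' (fl C φ x) - rad C (fl C φ x)| ≤ B * |δ| := k5
      _ ≤ B * (B * |rad C' x - rad C x|) := mul_le_mul_of_nonneg_left k2 hB.le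
      _ ≤ (B * B ^ 2 + B * B) * |rad C' x - rad C x| := by
          have : 0 ≤ B * B ^ 2 * |rad C' x - rad C x| := by positivity
          nlinarith

end Pool.XR2
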