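import Pool.Agent.H52.XR2.S1
import Pool.Agent.H70.XR.G

/-!
# Project XR2: basic estimates for planar bodies between two balls
-/

set_option autoImplicit false

open MeasureTheory Set Filter Topology Metric Asymptotics
open scoped Real ENNReal NNReal

namespace Pool.XR2

open Pool.Agent.H45.XR

theorem rad_bd {r R : ℝ} {C : Set ℂ} (hC : Bd r R C) (θ : ℝ) : r ≤ rad C θ ∧ rad C θ ≤ R := by
  have hp := rad_pos hC.body θ
  constructor
  · by_contra h
    push Not at h
    obtain ⟨s, hs1, hs2⟩ := exists_between h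
    have h1 : (s : ℂ) * e θ ∈ C := by
      apply hC.inn
      rw [mem_ball_zero_iff, norm_mul, norm_e, mul_one, Complex.norm_real, Real.norm_eq_abs,
        abs_of_pos (hp.trans hs1)]
      exact hs2
    have h2 := (mem_iff_le_rad hC.body θ (hp.trans hs1).le).1 h1
    linarith
  · have h1 := hC.out (pt_mem hC.body θ)
    rw [mem_closedBall_zero_iff, pt, norm_mul, norm_e, mul_one, Complex.norm_real,
      Real.norm_eq_abs, abs_of_pos hp] at h1
    exact h1

theorem norm_pt {C : Set ℂ} (hC : Body C) (θ : ℝ) : ‖pt C θ‖ = rad C θ := by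
  rw [pt, norm_mul, norm_e, mul_one, Complex.norm_real, Real.norm_eq_abs,
    abs_of_pos (rad_pos hC θ)]

theorem e_sub_le (a b : ℝ) : ‖e a - e b‖ ≤ |a - b| := by
  have := e_dist_le a b
  rwa [dist_eq_norm, Real.dist_eq] at this

theorem gauge_lip {r R : ℝ} {C : Set ℂ} (hr : 0 < r) (hC : Bd r R C) (z w : ℂ) :
    |gauge C z - gauge C w| ≤ r⁻¹ * ‖z - w‖ := by
  lift r to ℝ≥0 using hr.le
  have h1 := (hC.body.conv.lipschitzWith_gauge (by exact_mod_cast hr) hC.inn).dist_le_mul z w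
  rw [Real.dist_eq, dist_eq_norm, NNReal.coe_inv] at h1
  exact h1

theorem abs_tc_le (φ : ℝ) (z : ℂ) : |tc φ z| ≤ ‖z‖ := by
  have h4 : ‖z‖ ^ 2 = yc φ z ^ 2 + tc φ z ^ 2 := by
    rw [← Complex.normSq_eq_norm_sq, Complex.normSq_apply]
    unfold yc tc
    have := Real.sin_sq_add_cos_sq φ
    linear_combination (-(z.re ^ 2 + z.im ^ 2)) * this
  exact abs_le_of_sq_le_sq (by nlinarith [sq_nonneg (yc φ z)]) (norm_nonneg z)

theorem rad_lip {r R : ℝ} {C : Set ℂ} (hr : 0 < r) (hC : Bd r R C) (a b : ℝ) :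
    |rad C a - rad C b| ≤ R ^ 2 / r * |a - b| := by
  have h2 : |gauge C (e a) - gauge C (e b)| ≤ r⁻¹ * |a - b| :=
    (gauge_lip hr hC (e a) (e b)).trans
      (mul_le_mul_of_nonneg_left (e_sub_le a b) (inv_nonneg.2 hr.le))
  have ga := gauge_e_pos hC.body a
  have gb := gauge_e_pos hC.body b
  have ra := rad_pos hC.body a
  have rb := rad_pos hC.body b
  have h5 : rad C a - rad C b = (gauge C (e b) - gauge C (e a)) * (rad C a * rad C b) := by
    unfold rad
    field_simp
  rw [h5, abs_mul, abs_of_pos (mul_pos ra rb), abs_sub_comm]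
  have h6 : rad C a * rad C b ≤ R ^ 2 := by
    have h7 := (rad_bd hC a).2
    have h8 := (rad_bd hC b).2
    nlinarith
  calc |gauge C (e a) - gauge C (e b)| * (rad C a * rad C b)
      ≤ (r⁻¹ * |a - b|) * R ^ 2 := by
        apply mul_le_mul h2 h6 (mul_pos ra rb).le
        positivity
    _ = R ^ 2 / r * |a - b| := by
        field_simp

theorem pt_lip {r R : ℝ} {C : Set ℂ} (hr : 0 < r) (hC : Bd r R C) (a b : ℝ) :
    ‖pt C a - pt C b‖ ≤ (R + R ^ 2 / r) * |a - b| := by
  have h1 : pt C a - pt C b = ((rad C a - rad C b : ℝ) : ℂ) * e a +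
      (rad C b : ℂ) * (e a - e b) := by
    unfold pt; push_cast; ring
  rw [h1]
  refine (norm_add_le _ _).trans ?_
  rw [norm_mul, norm_mul, norm_e, mul_one, Complex.norm_real, Complex.norm_real,
    Real.norm_eq_abs, Real.norm_eq_abs, abs_of_pos (rad_pos hC.body b)]
  have h2 := rad_lip hr hC a b
  have h3 := e_sub_le a b
  have h4 := (rad_bd hC b).2
  have h5 : 0 < rad C b := rad_pos hC.body b
  have h6 : rad C b * ‖e a - e b‖ ≤ R * |a - b| :=
    mul_le_mul h4 h3 (norm_nonneg _) (h5.le.trans h4)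
  linarith

/-- Directions without boundary segments are dense. -/
theorem noSeg_dense {C : Set ℂ} (hC : Body C) {a b : ℝ} (hab : a < b) :
    ∃ φ, a < φ ∧ φ < b ∧ NoSeg C φ := by
  have hK : Body3 (C ×ˢ Icc (-1 : ℝ) 1) := by
    refine ⟨hC.conv.prod (convex_Icc _ _), hC.cpt.prod isCompact_Icc, ?_⟩
    refine ⟨((0 : ℂ), (0 : ℝ)), ?_⟩
    rw [interior_prod_eq, interior_Icc]
    exact ⟨hC.zero, by norm_num, by norm_num⟩
  have hd := noSeg3_dense hK
  obtain ⟨φ, hφ, h1, h2⟩ := hd.exists_between hab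
  refine ⟨φ, h1, h2, ?_⟩
  have h3 : (0 : ℝ) ∈ Hts (C ×ˢ Icc (-1 : ℝ) 1) := by
    refine ⟨(0 : ℂ), ?_⟩
    rw [interior_prod_eq, interior_Icc]
    exact ⟨hC.zero, by norm_num, by norm_num⟩
  have h4 := hφ 0 h3
  have h5 : sec (C ×ˢ Icc (-1 : ℝ) 1) 0 = C := by
    ext z
    constructor
    · intro h
      exact h.1
    · intro h
      exact ⟨h, by norm_num, by norm_num⟩
  rwa [h5] at h4

/-- The points of a body on a line through two boundary points lie between them. -/
theorem in_chord {C : Set ℂ} (hC : Body C) {φ a s : ℝ} {P z : ℂ} (hP : P ∈ C)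
    (hP' : P ∉ interior C) (hQ : P + s * e φ ∈ C) (hQ' : P + s * e φ ∉ interior C) (hs : s ≠ 0)
    (hz : z ∈ interior C) (hzt : tc φ z = tc φ P) (ha : P + a * e φ ∈ C) :
    min 0 s ≤ a ∧ a ≤ max 0 s := by
  have hz1 := eq_add_of_tc_eq hzt
  rw [hz1] at hz
  have hP0 : P + ((0 : ℝ) : ℂ) * e φ ∈ C := by simpa using hP
  have hP0' : P + ((0 : ℝ) : ℂ) * e φ ∉ interior C := by simpa using hP'
  have key : ∀ x y w : ℝ, P + x * e φ ∈ C → P + y * e φ ∉ interior C → P + w * e φ ∈ C →
      x < y → y < w → False := fun x y w hx hy hw h1 h2 => hy (B3.btw hC.conv hx hw hz h1 h2)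
  rcases lt_or_gt_of_ne hs with h | h
  · rw [min_eq_right h.le, max_eq_left h.le]
    constructor
    · by_contra hc
      push Not at hc
      exact key a s 0 ha hQ' hP0 hc h
    · by_contra hc
      push Not at hc
      exact key s 0 a hQ hP0' ha h hc
  · rw [min_eq_left h.le, max_eq_right h.le]
    constructor
    · by_contra hc
      push Not at hc
      exact key a 0 s ha hP0' hQ hc h
    · by_contra hc
      push Not at hc
      exact key 0 s a hP0 hQ' ha h hc

/-- Lines at levels far from the extreme ones meet the body in a long segment. -/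
theorem chord_ex {r R κ : ℝ} {C : Set ℂ} (hr : 0 < r) (hκ : 0 < κ) (hC : Bd r R C) {φ t : ℝ}
    (h1 : ∃ z ∈ C, tc φ z + κ ≤ t) (h2 : ∃ z ∈ C, t + κ ≤ tc φ z) :
    ∃ A ∈ C, ∃ s : ℝ, A + s * e φ ∈ C ∧ tc φ A = t ∧ r * κ / R ≤ s := by
  have hR : 0 < R := by
    have := rad_bd hC 0
    linarith
  -- one side
  have key : ∀ z ∈ C, 0 ≤ t / tc φ z → |t| + κ ≤ |tc φ z| →
      ∃ A ∈ C, ∃ s : ℝ, A + s * e φ ∈ C ∧ tc φ A = t ∧ r * κ / R ≤ s := by
    intro z hz h0 hle
    have hzR : ‖z‖ ≤ R := by simpa using hC.out hz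
    have hn : |tc φ z| ≤ ‖z‖ := abs_tc_le φ z
    have hne : tc φ z ≠ 0 := by
      intro h
      rw [h, abs_zero] at hle
      have := abs_nonneg t
      linarith
    obtain ⟨lam, hlam⟩ : ∃ lam : ℝ, lam = t / tc φ z := ⟨_, rfl⟩
    rw [← hlam] at h0
    have hl1 : lam ≤ 1 - κ / R := by
      have h5 : lam = |t| / |tc φ z| := by rw [← abs_div, ← hlam, abs_of_nonneg h0]
      have hpos : 0 < |tc φ z| := abs_pos.2 hne
      have h6 : |tc φ z| ≤ R := hn.trans hzR
      rw [h5, div_le_iff₀ hpos]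
      have h7 : κ / R * |tc φ z| ≤ κ := by
        rw [div_mul_eq_mul_div, div_le_iff₀ hR]
        nlinarith
      nlinarith
    have hκR : 0 < κ / R := by positivity
    have hlt : lam * tc φ z = t := by
      rw [hlam]; field_simp
    have hpt : ∀ s : ℝ, |s| < r → (lam : ℂ) * z + ((1 - lam : ℝ) : ℂ) * (s * e φ) ∈ C := by
      intro s hs
      have h8 : (s : ℂ) * e φ ∈ C := by
        apply hC.inn
        rw [mem_ball_zero_iff, norm_mul, norm_e, mul_one, Complex.norm_real, Real.norm_eq_abs]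
        exact hs
      have h9 := hC.body.conv hz h8 h0 (by linarith : 0 ≤ 1 - lam) (by ring)
      simpa using h9
    have hr2 : |r / 2| < r := by
      rw [abs_of_pos (by positivity)]; linarith
    have hr2' : |-(r / 2)| < r := by
      rw [abs_neg]; exact hr2
    refine ⟨_, hpt (-(r / 2)) hr2', (1 - lam) * r, ?_, ?_, ?_⟩
    · have h10 := hpt (r / 2) hr2
      have h11 : (lam : ℂ) * z + ((1 - lam : ℝ) : ℂ) * (((-(r / 2) : ℝ) : ℂ) * e φ) +
          (((1 - lam) * r : ℝ) : ℂ) * e φ =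
          (lam : ℂ) * z + ((1 - lam : ℝ) : ℂ) * (((r / 2 : ℝ) : ℂ) * e φ) := by
        push_cast
        ring
      rw [h11]
      exact h10
    · rw [tc_add, tc_mul, tc_mul, tc_mul, tc_e_self, hlt]
      ring
    · have h12 : κ / R ≤ 1 - lam := by linarith
      calc r * κ / R = κ / R * r := by ring
        _ ≤ (1 - lam) * r := mul_le_mul_of_nonneg_right h12 hr.le
  obtain ⟨z, hz, hz1⟩ := h1
  obtain ⟨z', hz', hz2⟩ := h2
  rcases le_or_gt 0 t with ht | ht
  · refine key z' hz' (div_nonneg ht (by linarith)) ?_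
    rw [abs_of_nonneg ht, abs_of_nonneg (by linarith)]
    exact hz2
  · refine key z hz (div_nonneg_of_nonpos ht.le (by linarith)) ?_
    rw [abs_of_neg ht, abs_of_neg (by linarith)]
    linarith

end Pool.XR2
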