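import Pool.Agent.H7.XR2.Sft

/-!
# Project XR2: the shift of the chord in terms of the radial functions
-/

set_option autoImplicit false

open MeasureTheory Set Filter Topology Metric Asymptotics
open scoped Real ENNReal NNReal

namespace Pool.XR2

open Pool.Agent.H45.XR

theorem gauge_pt {C C' : Set ℂ} (hC : Body C) (a : ℝ) :
    gauge C' (pt C a) = rad C a / rad C' a := by
  have h1 : pt C a = rad C a • e a := by rw [Complex.real_smul]; rfl
  rw [h1, gauge_smul_of_nonneg (rad_pos hC a).le, smul_eq_mul]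
  unfold rad
  rw [div_inv_eq_mul]

/-- The gauge of a point of the body which is not an interior point. -/
theorem gauge_bd {C : Set ℂ} (hC : Body C) {z : ℂ} (h : z ∈ C) (h' : z ∉ interior C) :
    gauge C z = 1 := by
  refine le_antisymm (gauge_le_one_of_mem h) ?_
  by_contra hc
  push Not at hc
  exact h' ((gauge_lt_one_iff_mem_interior hC.conv hC.nhds).1 hc)

/-- Data of a pair of chords. -/
structure Ch (r R c₁ c₂ : ℝ) (C C' : Set ℂ) (φ α β s δ : ℝ) : Prop where
  hr : 0 < r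
  hc₁ : 0 < c₁
  hc₂ : 0 < c₂
  b : Bd r R C
  b' : Bd r R C'
  hs : c₁ ≤ s
  ch : pt C β = pt C α + s * e φ
  ch' : ∀ y : ℝ, pt C α + y * e φ ∈ C' ↔ δ ≤ y ∧ y ≤ δ + s
  t0 : tc φ (pt C α) ≤ 0
  mid : gauge C' (pt C α + ((δ + s / 2 : ℝ) : ℂ) * e φ) ≤ 1 - c₂

/-- Convexity of the gauge on a line. -/
theorem gauge_line {C : Set ℂ} (hC : Body C) (P : ℂ) (φ : ℝ) {x y z : ℝ} (h1 : x ≤ y) (h2 : y ≤ z)
    (h3 : x < z) : (z - x) * gauge C (P + y * e φ) ≤
      (z - y) * gauge C (P + x * e φ) + (y - x) * gauge C (P + z * e φ) := by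
  have hzx : 0 < z - x := by linarith
  have habs : Absorbent ℝ C := absorbent_nhds_zero hC.nhds
  have h4 : P + (y : ℂ) * e φ = ((z - y) / (z - x)) • (P + (x : ℂ) * e φ) +
      ((y - x) / (z - x)) • (P + (z : ℂ) * e φ) := by
    have hne : ((z : ℂ) - x) ≠ 0 := by exact_mod_cast hzx.ne'
    simp only [Complex.real_smul, Complex.ofReal_div, Complex.ofReal_sub]
    field_simp
    ring
  have h5 := gauge_add_le hC.conv habs (((z - y) / (z - x)) • (P + (x : ℂ) * e φ))
    (((y - x) / (z - x)) • (P + (z : ℂ) * e φ))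
  rw [← h4, gauge_smul_of_nonneg (div_nonneg (by linarith) hzx.le),
    gauge_smul_of_nonneg (div_nonneg (by linarith) hzx.le), smul_eq_mul, smul_eq_mul] at h5
  calc (z - x) * gauge C (P + y * e φ) ≤ (z - x) * ((z - y) / (z - x) * gauge C (P + x * e φ) +
        (y - x) / (z - x) * gauge C (P + z * e φ)) := mul_le_mul_of_nonneg_left h5 hzx.le
    _ = _ := by field_simp

/-- The estimates of the shift. -/
theorem Ch.est {r R c₁ c₂ : ℝ} {C C' : Set ℂ} {φ α β s δ : ℝ} (h : Ch r R c₁ c₂ C C' φ α β s δ)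
    {ε : ℝ} (hε : ε < r * c₂) (h1 : |rad C' α - rad C α| ≤ ε) (h2 : |rad C' β - rad C β| ≤ ε) :
    |δ| < s / 2 ∧ c₂ * |δ| ≤ R / r * |rad C' α - rad C α| ∧
      c₂ * |δ| ≤ R / r * |rad C' β - rad C β| ∧
      |rad C' α - rad C α| ≤ R / r * |δ| ∧ |rad C' β - rad C β| ≤ R / r * |δ| := by
  have hr := h.hr
  have hs : 0 < s := h.hc₁.trans_le h.hs
  have hR : 0 < R := by
    have := rad_bd h.b 0
    linarith
  obtain ⟨P, hP⟩ : ∃ P : ℂ, P = pt C α := ⟨_, rfl⟩
  have hch := h.ch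
  have hch' := h.ch'
  have hmid := h.mid
  rw [← hP] at hch hch' hmid
  obtain ⟨n1, n2⟩ := end_nint hch'
  have g1 : gauge C' (P + (δ : ℂ) * e φ) = 1 :=
    gauge_bd h.b'.body ((hch' δ).2 ⟨le_rfl, by linarith⟩) n1
  have g2 : gauge C' (P + ((δ + s : ℝ) : ℂ) * e φ) = 1 :=
    gauge_bd h.b'.body ((hch' (δ + s)).2 ⟨by linarith, le_rfl⟩) n2
  obtain ⟨g, hg⟩ : ∃ g : ℝ → ℝ, g = fun y : ℝ => gauge C' (P + (y : ℂ) * e φ) := ⟨_, rfl⟩
  have hconv : ∀ x y z : ℝ, x ≤ y → y ≤ z → x < z →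
      (z - x) * g y ≤ (z - y) * g x + (y - x) * g z := by
    intro x y z a b c
    rw [hg]
    exact gauge_line h.b'.body P φ a b c
  have e1 : g δ = 1 := by rw [hg]; exact g1
  have e2 : g (δ + s) = 1 := by rw [hg]; exact g2
  have e3 : g (δ + s / 2) ≤ 1 - c₂ := by rw [hg]; exact hmid
  have e4 : g 0 = rad C α / rad C' α := by
    rw [hg]
    simp only [Complex.ofReal_zero, zero_mul, add_zero]
    rw [hP]
    exact gauge_pt h.b.body α
  have e5 : g s = rad C β / rad C' β := by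
    rw [hg]
    show gauge C' (P + (s : ℂ) * e φ) = _
    rw [← hch]
    exact gauge_pt h.b.body β
  have ra := rad_bd h.b' α
  have rb := rad_bd h.b' β
  have ra0 : 0 < rad C' α := by linarith
  have rb0 : 0 < rad C' β := by linarith
  -- the values of the gauge at the end points of the chord of `C`
  have f1 : |g 0 - 1| * rad C' α = |rad C' α - rad C α| := by
    rw [e4, ← abs_of_pos ra0, ← abs_mul, abs_of_pos ra0, sub_mul, div_mul_cancel₀ _ ra0.ne',
      one_mul, abs_sub_comm]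
  have f2 : |g s - 1| * rad C' β = |rad C' β - rad C β| := by
    rw [e5, ← abs_of_pos rb0, ← abs_mul, abs_of_pos rb0, sub_mul, div_mul_cancel₀ _ rb0.ne',
      one_mul, abs_sub_comm]
  have f1a : |g 0 - 1| * r ≤ |rad C' α - rad C α| := by
    rw [← f1]; exact mul_le_mul_of_nonneg_left ra.1 (abs_nonneg _)
  have f2a : |g s - 1| * r ≤ |rad C' β - rad C β| := by
    rw [← f2]; exact mul_le_mul_of_nonneg_left rb.1 (abs_nonneg _)
  have f1b : |rad C' α - rad C α| ≤ R * |g 0 - 1| := by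
    rw [← f1, mul_comm]; exact mul_le_mul_of_nonneg_right ra.2 (abs_nonneg _)
  have f2b : |rad C' β - rad C β| ≤ R * |g s - 1| := by
    rw [← f2, mul_comm]; exact mul_le_mul_of_nonneg_right rb.2 (abs_nonneg _)
  have f1c : |g 0 - 1| < c₂ := by
    have : |g 0 - 1| * r < c₂ * r := by linarith
    exact lt_of_mul_lt_mul_right this hr.le
  have f2c : |g s - 1| < c₂ := by
    have : |g s - 1| * r < c₂ * r := by linarith
    exact lt_of_mul_lt_mul_right this hr.le
  -- Lipschitz bounds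
  have l1 : |g 0 - 1| ≤ r⁻¹ * |δ| := by
    rw [← e1, hg]
    have := gauge_lip hr h.b' (P + ((0 : ℝ) : ℂ) * e φ) (P + (δ : ℂ) * e φ)
    have h3 : P + ((0 : ℝ) : ℂ) * e φ - (P + (δ : ℂ) * e φ) = ((-δ : ℝ) : ℂ) * e φ := by
      push_cast; ring
    rw [h3, norm_re, abs_neg] at this
    exact this
  have l2 : |g s - 1| ≤ r⁻¹ * |δ| := by
    rw [← e2, hg]
    have := gauge_lip hr h.b' (P + (s : ℂ) * e φ) (P + ((δ + s : ℝ) : ℂ) * e φ)
    have h3 : P + (s : ℂ) * e φ - (P + ((δ + s : ℝ) : ℂ) * e φ) = ((-δ : ℝ) : ℂ) * e φ := by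
      push_cast; ring
    rw [h3, norm_re, abs_neg] at this
    exact this
  -- slopes
  have s1 : ∀ y, y ≤ δ → 1 * (s / 2) + c₂ * (δ - y) ≤ g y * (s / 2) := by
    intro y hy
    have := hconv y δ (δ + s / 2) hy (by linarith) (by linarith)
    rw [e1] at this
    have h3 : (δ - y) * g (δ + s / 2) ≤ (δ - y) * (1 - c₂) :=
      mul_le_mul_of_nonneg_left e3 (by linarith)
    nlinarith
  have s2 : ∀ y, δ ≤ y → y ≤ δ + s / 2 → g y * (s / 2) ≤ 1 * (s / 2) - c₂ * (y - δ) := by
    intro y hy hy'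
    have := hconv δ y (δ + s / 2) hy hy' (by linarith)
    rw [e1] at this
    have h3 : (y - δ) * g (δ + s / 2) ≤ (y - δ) * (1 - c₂) :=
      mul_le_mul_of_nonneg_left e3 (by linarith)
    nlinarith
  have s3 : ∀ y, δ + s ≤ y → 1 * (s / 2) + c₂ * (y - δ - s) ≤ g y * (s / 2) := by
    intro y hy
    have := hconv (δ + s / 2) (δ + s) y (by linarith) hy (by linarith)
    rw [e2] at this
    have h3 : (y - (δ + s)) * g (δ + s / 2) ≤ (y - (δ + s)) * (1 - c₂) :=
      mul_le_mul_of_nonneg_left e3 (by linarith)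
    nlinarith
  have s4 : ∀ y, δ + s / 2 ≤ y → y ≤ δ + s → g y * (s / 2) ≤ 1 * (s / 2) - c₂ * (δ + s - y) := by
    intro y hy hy'
    have := hconv (δ + s / 2) y (δ + s) hy hy' (by linarith)
    rw [e2] at this
    have h3 : (δ + s - y) * g (δ + s / 2) ≤ (δ + s - y) * (1 - c₂) :=
      mul_le_mul_of_nonneg_left e3 (by linarith)
    nlinarith
  have hs2 : s / 2 ≤ R := by
    have h3 : ‖pt C β - P‖ = s := by
      rw [hch, add_sub_cancel_left, norm_re, abs_of_pos hs]
    have h4 : ‖pt C β - P‖ ≤ R + R := by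
      refine (norm_sub_le _ _).trans (add_le_add ?_ ?_)
      · rw [norm_pt h.b.body]; exact (rad_bd h.b β).2
      · rw [hP, norm_pt h.b.body]; exact (rad_bd h.b α).2
    linarith
  have hc₂ := h.hc₂
  -- the shift is small, and both slopes apply
  have main : |δ| < s / 2 ∧ c₂ * |δ| ≤ |g 0 - 1| * (s / 2) ∧ c₂ * |δ| ≤ |g s - 1| * (s / 2) := by
    rcases le_total 0 δ with hδ | hδ
    · rw [abs_of_nonneg hδ]
      have a1 := s1 0 hδ
      have a2 : c₂ * δ ≤ |g 0 - 1| * (s / 2) := by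
        have : (g 0 - 1) * (s / 2) ≤ |g 0 - 1| * (s / 2) :=
          mul_le_mul_of_nonneg_right (le_abs_self _) (by linarith)
        nlinarith
      have a3 : δ < s / 2 := by
        by_contra hc
        push Not at hc
        have : c₂ * (s / 2) ≤ c₂ * δ := mul_le_mul_of_nonneg_left hc hc₂.le
        have h6 : |g 0 - 1| * (s / 2) < c₂ * (s / 2) :=
          mul_lt_mul_of_pos_right f1c (by linarith)
        linarith
      refine ⟨a3, a2, ?_⟩
      have a4 := s4 s (by linarith) (by linarith)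
      have : -(g s - 1) * (s / 2) ≤ |g s - 1| * (s / 2) :=
        mul_le_mul_of_nonneg_right (neg_le_abs _) (by linarith)
      nlinarith
    · rw [abs_of_nonpos hδ]
      have a1 := s3 s (by linarith)
      have a2 : c₂ * (-δ) ≤ |g s - 1| * (s / 2) := by
        have : (g s - 1) * (s / 2) ≤ |g s - 1| * (s / 2) :=
          mul_le_mul_of_nonneg_right (le_abs_self _) (by linarith)
        nlinarith
      have a3 : -δ < s / 2 := by
        by_contra hc
        push Not at hc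
        have : c₂ * (s / 2) ≤ c₂ * (-δ) := mul_le_mul_of_nonneg_left hc hc₂.le
        have h6 : |g s - 1| * (s / 2) < c₂ * (s / 2) :=
          mul_lt_mul_of_pos_right f2c (by linarith)
        linarith
      refine ⟨a3, ?_, a2⟩
      have a4 := s2 0 hδ (by linarith)
      have : -(g 0 - 1) * (s / 2) ≤ |g 0 - 1| * (s / 2) :=
        mul_le_mul_of_nonneg_right (neg_le_abs _) (by linarith)
      nlinarith
  obtain ⟨m1, m2, m3⟩ := main
  have q1 : |g 0 - 1| * (s / 2) ≤ R / r * |rad C' α - rad C α| := by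
    calc |g 0 - 1| * (s / 2) ≤ |g 0 - 1| * R := mul_le_mul_of_nonneg_left hs2 (abs_nonneg _)
      _ = R / r * (|g 0 - 1| * r) := by field_simp
      _ ≤ _ := mul_le_mul_of_nonneg_left f1a (by positivity)
  have q2 : |g s - 1| * (s / 2) ≤ R / r * |rad C' β - rad C β| := by
    calc |g s - 1| * (s / 2) ≤ |g s - 1| * R := mul_le_mul_of_nonneg_left hs2 (abs_nonneg _)
      _ = R / r * (|g s - 1| * r) := by field_simp
      _ ≤ _ := mul_le_mul_of_nonneg_left f2a (by positivity)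
  refine ⟨m1, m2.trans q1, m3.trans q2, f1b.trans ?_, f2b.trans ?_⟩
  · calc R * |g 0 - 1| ≤ R * (r⁻¹ * |δ|) := mul_le_mul_of_nonneg_left l1 hR.le
      _ = R / r * |δ| := by rw [div_eq_mul_inv]; ring
  · calc R * |g s - 1| ≤ R * (r⁻¹ * |δ|) := mul_le_mul_of_nonneg_left l2 hR.le
      _ = R / r * |δ| := by rw [div_eq_mul_inv]; ring

end Pool.XR2
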