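import Pool.Agent.H7.XR2.Bas

/-!
# Project XR2: the chord of the second body (used for PSA and GFL)
-/

set_option autoImplicit false

open MeasureTheory Set Filter Topology Metric Asymptotics
open scoped Real ENNReal NNReal

namespace Pool.XR2

open Pool.Agent.H45.XR

theorem norm_re (a φ : ℝ) : ‖(a : ℂ) * e φ‖ = |a| := by
  rw [norm_mul, norm_e, mul_one, Complex.norm_real, Real.norm_eq_abs]

/-- A compact convex set meets a line in an interval. -/
theorem line_icc {C : Set ℂ} (hc : Convex ℝ C) (hk : IsCompact C) (P : ℂ) (φ : ℝ)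
    (hne : ∃ y : ℝ, P + y * e φ ∈ C) :
    ∃ m M : ℝ, m ≤ M ∧ ∀ y : ℝ, P + y * e φ ∈ C ↔ m ≤ y ∧ y ≤ M := by
  obtain ⟨S, hS⟩ : ∃ S : Set ℝ, S = {y : ℝ | P + y * e φ ∈ C} := ⟨_, rfl⟩
  have hcont : Continuous fun y : ℝ => P + (y : ℂ) * e φ := by fun_prop
  have hcl : IsClosed S := by
    rw [hS]
    exact hk.isClosed.preimage hcont
  obtain ⟨R, hR⟩ := hk.isBounded.exists_norm_le
  have hbd : Bornology.IsBounded S := by
    rw [isBounded_iff_forall_norm_le]
    refine ⟨R + ‖P‖, fun y hy => ?_⟩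
    rw [hS] at hy
    have h1 := hR _ hy
    have h2 : (y : ℂ) * e φ = (P + y * e φ) - P := by ring
    have h3 : ‖(y : ℂ) * e φ‖ ≤ ‖P + (y : ℂ) * e φ‖ + ‖P‖ := by
      conv_lhs => rw [h2]
      exact norm_sub_le _ _
    rw [norm_re] at h3
    rw [Real.norm_eq_abs]
    linarith
  have hcp : IsCompact S := Metric.isCompact_of_isClosed_isBounded hcl hbd
  have hneS : S.Nonempty := by
    obtain ⟨y, hy⟩ := hne
    exact ⟨y, by rw [hS]; exact hy⟩
  have hm := hcp.sInf_mem hneS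
  have hM := hcp.sSup_mem hneS
  have hconv : ∀ a ∈ S, ∀ b ∈ S, ∀ y, a ≤ y → y ≤ b → y ∈ S := by
    intro a ha b hb y h1 h2
    rcases eq_or_lt_of_le (h1.trans h2) with h | h
    · have : y = a := by linarith
      rw [this]; exact ha
    · rw [hS] at ha hb ⊢
      have h3 := hc ha hb (a := (b - y) / (b - a)) (b := (y - a) / (b - a))
        (div_nonneg (by linarith) (by linarith)) (div_nonneg (by linarith) (by linarith))
        (by rw [← add_div]; rw [div_eq_one_iff_eq (by linarith)]; ring)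
      have hne' : ((b : ℂ) - a) ≠ 0 := by
        have : (b - a : ℝ) ≠ 0 := by linarith
        exact_mod_cast this
      show P + (y : ℂ) * e φ ∈ C
      convert h3 using 1
      simp only [Complex.real_smul, Complex.ofReal_div, Complex.ofReal_sub]
      field_simp
      ring
  refine ⟨sInf S, sSup S, csInf_le hcp.bddBelow hM |>.trans le_rfl, fun y => ?_⟩
  constructor
  · intro hy
    have hy' : y ∈ S := by rw [hS]; exact hy
    exact ⟨csInf_le hcp.bddBelow hy', le_csSup hcp.bddAbove hy'⟩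
  · rintro ⟨h1, h2⟩
    have h3 := hconv _ hm _ hM y h1 h2
    rw [hS] at h3
    exact h3

/-- The chord of the second body has the same length. -/
theorem shift_ex {C C' : Set ℂ} (hC : Body C) (hC' : Body C') {φ : ℝ} (hX : SameX C C' φ) {P : ℂ}
    {s : ℝ} (hs : 0 < s) (hP : P ∈ C) (hP' : P ∉ interior C) (hQ : P + s * e φ ∈ C)
    (hQ' : P + s * e φ ∉ interior C) (hz : ∃ z ∈ interior C, tc φ z = tc φ P) :
    ∃ δ : ℝ, ∀ y : ℝ, P + y * e φ ∈ C' ↔ δ ≤ y ∧ y ≤ δ + s := by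
  obtain ⟨z, hz, hzt⟩ := hz
  have h1 : {y : ℝ | P + y * e φ ∈ C} = Icc 0 s := by
    ext y
    constructor
    · intro hy
      have := in_chord hC hP hP' hQ hQ' hs.ne' hz hzt hy
      rw [min_eq_left hs.le, max_eq_right hs.le] at this
      exact this
    · rintro ⟨h2, h3⟩
      have h4 := hC.conv hP hQ (a := 1 - y / s) (b := y / s)
        (by rw [sub_nonneg, div_le_one hs]; exact h3) (div_nonneg h2 hs.le) (by ring)
      show P + (y : ℂ) * e φ ∈ C
      convert h4 using 1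
      have hne : (s : ℂ) ≠ 0 := by exact_mod_cast hs.ne'
      simp only [Complex.real_smul, Complex.ofReal_div, Complex.ofReal_sub, Complex.ofReal_one]
      field_simp
      ring
  have h2 := hX P
  rw [h1, Real.volume_Icc, sub_zero] at h2
  have h3 : ∃ y : ℝ, P + y * e φ ∈ C' := by
    have h4 : volume {y : ℝ | P + y * e φ ∈ C'} ≠ 0 := by
      rw [← h2]
      exact (ENNReal.ofReal_pos.2 hs).ne'
    exact nonempty_of_measure_ne_zero h4
  obtain ⟨m, M, hmM, hiff⟩ := line_icc hC'.conv hC'.cpt P φ h3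
  have h4 : {y : ℝ | P + y * e φ ∈ C'} = Icc m M := by
    ext y
    exact hiff y
  rw [h4, Real.volume_Icc, ENNReal.ofReal_eq_ofReal_iff hs.le (by linarith)] at h2
  refine ⟨m, fun y => ?_⟩
  rw [hiff]
  have : M = m + s := by linarith
  rw [this]

/-- The end points of a chord are not interior points. -/
theorem end_nint {C : Set ℂ} {φ : ℝ} {P : ℂ} {m M : ℝ}
    (h : ∀ y : ℝ, P + y * e φ ∈ C ↔ m ≤ y ∧ y ≤ M) :
    P + m * e φ ∉ interior C ∧ P + M * e φ ∉ interior C := by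
  have key : ∀ y : ℝ, P + y * e φ ∈ interior C → ∃ η > 0, ∀ y' : ℝ, |y' - y| < η →
      P + y' * e φ ∈ C := by
    intro y hy
    have hcont : Continuous fun y : ℝ => P + (y : ℂ) * e φ := by fun_prop
    have h1 : (fun y : ℝ => P + (y : ℂ) * e φ) ⁻¹' (interior C) ∈ 𝓝 y :=
      hcont.continuousAt.preimage_mem_nhds (isOpen_interior.mem_nhds hy)
    obtain ⟨η, hη, h2⟩ := Metric.mem_nhds_iff.1 h1
    exact ⟨η, hη, fun y' hy' => interior_subset (h2 (by rw [mem_ball, Real.dist_eq]; exact hy'))⟩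
  constructor
  · intro hm
    obtain ⟨η, hη, h1⟩ := key m hm
    have h2 := (h (m - η / 2)).1 (h1 _ (by rw [abs_lt]; constructor <;> linarith))
    linarith
  · intro hM
    obtain ⟨η, hη, h1⟩ := key M hM
    have h2 := (h (M + η / 2)).1 (h1 _ (by rw [abs_lt]; constructor <;> linarith))
    linarith

/-- Levels of the second body. -/
theorem level_ex {C C' : Set ℂ} (hC : Body C) {φ : ℝ} (hX : SameX C C' φ)
    {τ κ : ℝ} (hκ : 0 < κ) (h : ∃ z ∈ C, tc φ z + κ ≤ τ) : ∃ z ∈ C', tc φ z + κ / 2 ≤ τ := by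
  obtain ⟨z, hz, hzt⟩ := h
  -- a point of the segment from `z` to `0`
  obtain ⟨lam, h0, h1, h2⟩ : ∃ lam : ℝ, 0 < lam ∧ lam < 1 ∧ -(lam * tc φ z) ≤ κ / 2 := by
    refine ⟨κ / 2 / (κ + |tc φ z|), by positivity, ?_, ?_⟩
    · rw [div_lt_one (by positivity)]
      have := abs_nonneg (tc φ z)
      linarith
    · have h3 : -tc φ z ≤ κ + |tc φ z| := by
        have := neg_abs_le (tc φ z)
        linarith
      have h4 : κ / 2 / (κ + |tc φ z|) * (κ + |tc φ z|) = κ / 2 := by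
        field_simp
      have h5 : 0 < κ / 2 / (κ + |tc φ z|) := by positivity
      nlinarith
  have h3 : ((1 - lam : ℝ) : ℂ) * z ∈ interior C := by
    have h4 := hC.conv.combo_self_interior_mem_interior hz hC.zero (a := 1 - lam) (b := lam)
      (by linarith) h0 (by ring)
    simpa using h4
  have h4 : 0 < volume {s : ℝ | ((1 - lam : ℝ) : ℂ) * z + s * e φ ∈ C} := B3.xray_pos h3
  rw [hX] at h4
  obtain ⟨s, hs⟩ := nonempty_of_measure_ne_zero h4.ne'
  refine ⟨_, hs, ?_⟩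
  rw [tc_add, tc_mul, tc_mul, tc_e_self]
  linarith

/-- The middle of a chord at a good level is deep inside. -/
theorem mid_deep {r R κ c₁ : ℝ} (hκ : 0 < κ) (hc₁ : 0 < c₁) (hR : 0 < R) : ∃ c₂ : ℝ, 0 < c₂ ∧
    c₂ < 1 ∧ ∀ (D : Set ℂ) (φ s : ℝ) (P : ℂ), Bd r R D → c₁ ≤ s → P ∈ D → P + s * e φ ∈ D →
      tc φ P ≤ 0 → (∃ z ∈ D, tc φ z + κ ≤ tc φ P) →
      gauge D (P + ((s / 2 : ℝ) : ℂ) * e φ) ≤ 1 - c₂ := by
  obtain ⟨c, hc⟩ : ∃ c : ℝ, c = min (κ / (2 * R)) (c₁ / (4 * (R + 2 * R ^ 2 / κ))) := ⟨_, rfl⟩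
  have hc0 : 0 < c := by rw [hc]; positivity
  have hca : c * R ≤ κ / 2 := by
    have h1 : c ≤ κ / (2 * R) := by rw [hc]; exact min_le_left _ _
    calc c * R ≤ κ / (2 * R) * R := mul_le_mul_of_nonneg_right h1 hR.le
      _ = κ / 2 := by field_simp
  have hcb : c * (R + 2 * R ^ 2 / κ) ≤ c₁ / 4 := by
    have h1 : c ≤ c₁ / (4 * (R + 2 * R ^ 2 / κ)) := by rw [hc]; exact min_le_right _ _
    have h2 : 0 < R + 2 * R ^ 2 / κ := by positivity
    calc c * (R + 2 * R ^ 2 / κ) ≤ c₁ / (4 * (R + 2 * R ^ 2 / κ)) * (R + 2 * R ^ 2 / κ) :=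
          mul_le_mul_of_nonneg_right h1 h2.le
      _ = c₁ / 4 := by field_simp
  refine ⟨c / (1 + c), by positivity, by rw [div_lt_one (by positivity)]; linarith, ?_⟩
  rintro D φ s P hD hs hP hQ ht ⟨z, hz, hzt⟩
  have hs0 : 0 < s := hc₁.trans_le hs
  obtain ⟨M, hM⟩ : ∃ M : ℂ, M = P + ((s / 2 : ℝ) : ℂ) * e φ := ⟨_, rfl⟩
  rw [← hM]
  obtain ⟨t, htd⟩ : ∃ t : ℝ, t = tc φ P := ⟨_, rfl⟩
  rw [← htd] at ht hzt
  have hseg : ∀ y : ℝ, |y| ≤ s / 2 → M + y * e φ ∈ D := by
    intro y hy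
    rw [abs_le] at hy
    have h4 := hD.body.conv hP hQ (a := 1 / 2 - y / s) (b := 1 / 2 + y / s)
      (by rw [sub_nonneg, div_le_iff₀ hs0]; linarith)
      (by
        have : -(1 / 2) ≤ y / s := by rw [le_div_iff₀ hs0]; linarith
        linarith) (by ring)
    convert h4 using 1
    have hne : (s : ℂ) ≠ 0 := by exact_mod_cast hs0.ne'
    rw [hM]
    simp only [Complex.real_smul, Complex.ofReal_div, Complex.ofReal_sub, Complex.ofReal_one,
      Complex.ofReal_add, Complex.ofReal_ofNat]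
    field_simp
    ring
  have hMD : M ∈ D := by
    have := hseg 0 (by rw [abs_zero]; positivity)
    simpa using this
  have hMR : ‖M‖ ≤ R := by simpa using hD.out hMD
  have hzR : ‖z‖ ≤ R := by simpa using hD.out hz
  have hPR : ‖P‖ ≤ R := by simpa using hD.out hP
  have htM : tc φ M = t := by
    rw [hM, tc_add, tc_mul, tc_e_self, htd]; ring
  have htR : -t ≤ R := by
    have := abs_tc_le φ P
    rw [← htd, abs_of_nonpos ht] at this
    linarith
  obtain ⟨g, hg⟩ : ∃ g : ℝ, g = t - tc φ z := ⟨_, rfl⟩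
  have hgκ : κ ≤ g := by linarith
  have hg0 : 0 < g := hκ.trans_le hgκ
  obtain ⟨μ, hμ⟩ : ∃ μ : ℝ, μ = c * (-t) / g := ⟨_, rfl⟩
  have hμ0 : 0 ≤ μ := by
    rw [hμ]
    exact div_nonneg (mul_nonneg hc0.le (by linarith)) hg0.le
  have hμ1 : μ ≤ c * R / κ := by
    rw [hμ]
    apply div_le_div₀ (by positivity) (mul_le_mul_of_nonneg_left htR hc0.le) hκ hgκ
  have hμ2 : μ ≤ 1 / 2 := by
    refine hμ1.trans ?_
    rw [div_le_iff₀ hκ]
    linarith
  have h1μ : 0 < 1 - μ := by linarith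
  -- the vector
  obtain ⟨v, hv⟩ : ∃ v : ℂ, v = ((1 / (1 - μ) : ℝ) : ℂ) * ((c : ℂ) * M + μ * M - μ * z) :=
    ⟨_, rfl⟩
  have hμg : μ * g = c * (-t) := by
    rw [hμ]; field_simp
  have htv : tc φ v = 0 := by
    rw [hv, tc_mul, tc_sub, tc_add, tc_mul, tc_mul, tc_mul, htM]
    have : c * t + μ * t - μ * tc φ z = 0 := by
      rw [hg] at hμg
      linarith
    rw [this, mul_zero]
  have hvn : ‖v‖ ≤ s / 2 := by
    rw [hv, norm_mul, Complex.norm_real, Real.norm_eq_abs, abs_of_pos (by positivity)]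
    have h1 : ‖(c : ℂ) * M + μ * M - μ * z‖ ≤ c * R + μ * R + μ * R := by
      refine (norm_sub_le _ _).trans ?_
      refine add_le_add ((norm_add_le _ _).trans (add_le_add ?_ ?_)) ?_
      · rw [norm_mul, Complex.norm_real, Real.norm_eq_abs, abs_of_pos hc0]
        exact mul_le_mul_of_nonneg_left hMR hc0.le
      · rw [norm_mul, Complex.norm_real, Real.norm_eq_abs, abs_of_nonneg hμ0]
        exact mul_le_mul_of_nonneg_left hMR hμ0
      · rw [norm_mul, Complex.norm_real, Real.norm_eq_abs, abs_of_nonneg hμ0]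
        exact mul_le_mul_of_nonneg_left hzR hμ0
    have h2 : c * R + μ * R + μ * R ≤ c₁ / 4 := by
      refine le_trans ?_ hcb
      have h3 : μ * R ≤ c * R / κ * R := mul_le_mul_of_nonneg_right hμ1 hR.le
      have h4 : c * (R + 2 * R ^ 2 / κ) = c * R + c * R / κ * R + c * R / κ * R := by
        field_simp
        ring
      linarith
    have h3 : 1 / (1 - μ) ≤ 2 := by
      rw [div_le_iff₀ h1μ]
      linarith
    calc 1 / (1 - μ) * ‖(c : ℂ) * M + μ * M - μ * z‖ ≤ 2 * (c₁ / 4) :=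
          mul_le_mul h3 (h1.trans h2) (norm_nonneg _) (by norm_num)
      _ ≤ s / 2 := by linarith
  have hv2 : v = (yc φ v : ℂ) * e φ := by
    have := decomp φ v
    rw [htv] at this
    simpa using this
  have hyv : |yc φ v| ≤ s / 2 := by
    have h1 : ‖v‖ = |yc φ v| := by
      conv_lhs => rw [hv2]
      exact norm_re _ _
    rw [← h1]; exact hvn
  have hw : M + v ∈ D := by
    rw [hv2]
    exact hseg _ hyv
  have hcomb := hD.body.conv hw hz h1μ.le hμ0 (by ring)
  have heq : (1 - μ) • (M + v) + μ • z = ((1 + c : ℝ) : ℂ) * M := by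
    have hne : ((1 : ℂ) - μ) ≠ 0 := by
      have : (1 - μ : ℝ) ≠ 0 := h1μ.ne'
      exact_mod_cast this
    rw [hv]
    simp only [Complex.real_smul, Complex.ofReal_div, Complex.ofReal_sub, Complex.ofReal_one,
      Complex.ofReal_add]
    field_simp
    ring
  rw [heq] at hcomb
  have hle : gauge D (((1 + c : ℝ) : ℂ) * M) ≤ 1 := gauge_le_one_of_mem hcomb
  have hsm : ((1 + c : ℝ) : ℂ) * M = (1 + c) • M := by
    rw [Complex.real_smul]
  rw [hsm, gauge_smul_of_nonneg (by positivity : (0 : ℝ) ≤ 1 + c), smul_eq_mul] at hle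
  have hfin : 1 - c / (1 + c) = 1 / (1 + c) := by field_simp; ring
  rw [hfin, le_div_iff₀ (by positivity)]
  linarith

end Pool.XR2
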